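import Mathlib

/-!
# From residues to a linear system
-/

namespace Pool.Agent.H577R2.BJ

/-- An item `(κ, l, z)`: its rate is `(κ - 1) / q_N + ∑_{ℓ ∈ l} 1 / q_ℓ`. -/
abbrev Item := ℕ × List ℕ × ℕ

/-- The rate of an item. -/
def rate (q : ℕ → ℕ) (N : ℕ) (it : Item) : ℚ :=
  ((it.1 : ℚ) - 1) / q N + (it.2.1.map (fun ℓ => 1 / (q ℓ : ℚ))).sum

/-- The linear form of an item. -/
def hf (m N : ℕ) (u : ℕ → ℤ) (it : Item) : ℤ :=
  ((it.1 : ℤ) - 1) * u N + (it.2.1.map u).sum - ((m : ℤ) - 1) * it.2.2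

/-- The bound. -/
def bnd (m : ℕ) (Q : ℕ) : ℚ := ((m : ℚ) - 1) / m - (3 * m - 2) / (2 * m * Q)

/-- The fractional part, in `(0, 1]`. -/
def fp (v : ℚ) : ℚ := v - ⌈v⌉ + 1

theorem fp_pos (v : ℚ) : 0 < fp v := by
  have := Int.ceil_lt_add_one v
  unfold fp
  linarith

theorem fp_eq {v g : ℚ} (k : ℤ) (h : v = k + g) (h0 : 0 < g) (h1 : g ≤ 1) : fp v = g := by
  have : ⌈v⌉ = k + 1 := by
    rw [Int.ceil_eq_iff]
    push_cast
    constructor <;> linarith
  unfold fp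
  rw [this]
  push_cast
  linarith

/-- Conditions for the moduli. -/
structure Modl (m N : ℕ) (q e : ℕ → ℕ) : Prop where
  m2 : 2 ≤ m
  eq : ∀ ℓ ≤ N, q ℓ = 1 + m * e ℓ
  cop : ∀ ℓ ≤ N, ∀ ℓ' ≤ N, ℓ ≠ ℓ' → Nat.Coprime (q ℓ) (q ℓ')
  le : ∀ ℓ ≤ N, q ℓ ≤ q N
  close : ∀ ℓ ≤ N, 24 * m ^ 2 * (q N - q ℓ) ≤ q ℓ
  big : 2 * m ^ 2 + 13 * m + 1 < q N

/-- Conditions for an item. -/
structure GoodI (m N : ℕ) (it : Item) : Prop where
  eq : it.1 + it.2.1.length = 2 + m * it.2.2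
  len : it.2.1.length ≤ 3
  z : it.2.2 ≤ 1
  lt : ∀ ℓ ∈ it.2.1, ℓ ≤ N

/-- The value `g`. -/
def gf (m N : ℕ) (q : ℕ → ℕ) (u : ℕ → ℤ) (it : Item) : ℚ :=
  (3 * m - 2) / (2 * m * q N) + ((it.1 : ℚ) - 1) * ((u N : ℚ) - ((m : ℚ) - 1) / m) / q N +
    (it.2.1.map (fun ℓ => ((u ℓ : ℚ) - ((m : ℚ) - 1) / m) / q ℓ)).sum

variable {m N : ℕ} {q e : ℕ → ℕ}

theorem Modl.qpos (H : Modl m N q e) {ℓ : ℕ} (h : ℓ ≤ N) : (0 : ℚ) < q ℓ := by
  have := H.eq ℓ h
  have h2 : 0 < q ℓ := by omega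
  exact_mod_cast h2

theorem Modl.mpos (H : Modl m N q e) : (0 : ℚ) < m := by
  have := H.m2
  have h2 : 0 < m := by omega
  exact_mod_cast h2

/-- The key identity. -/
theorem key_identity (H : Modl m N q e) {it : Item} (G : GoodI m N it) {y : ℤ} {u k : ℕ → ℤ}
    (hu : ∀ ℓ ≤ N, y = (m - 1) * e ℓ + u ℓ + k ℓ * q ℓ) :
    (y : ℚ) * rate q N it - bnd m (q N) =
      ((((it.1 : ℤ) - 1) * k N + (it.2.1.map k).sum + ((m : ℤ) - 1) * it.2.2 : ℤ) : ℚ) +
        gf m N q u it := by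
  have hm := H.mpos
  have hy : ∀ ℓ ≤ N, (y : ℚ) / q ℓ = k ℓ + ((m : ℚ) - 1) / m +
      ((u ℓ : ℚ) - ((m : ℚ) - 1) / m) / q ℓ := by
    intro ℓ hℓ
    have hq := H.qpos hℓ
    have h1 : (y : ℚ) = ((m : ℚ) - 1) * e ℓ + u ℓ + k ℓ * q ℓ := by
      have := hu ℓ hℓ
      rw [this]
      push_cast
      ring
    have h2 : (q ℓ : ℚ) = 1 + m * e ℓ := by
      have := H.eq ℓ hℓ
      exact_mod_cast this
    have h3 : (e ℓ : ℚ) = ((q ℓ : ℚ) - 1) / m := by
      rw [h2]
      field_simp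
      ring
    rw [h1, h3]
    field_simp
    ring
  have hsum : ∀ l : List ℕ, (∀ ℓ ∈ l, ℓ ≤ N) →
      (y : ℚ) * (l.map (fun ℓ => 1 / (q ℓ : ℚ))).sum =
        (((l.map k).sum : ℤ) : ℚ) + l.length * (((m : ℚ) - 1) / m) +
          (l.map (fun ℓ => ((u ℓ : ℚ) - ((m : ℚ) - 1) / m) / q ℓ)).sum := by
    intro l
    induction l with
    | nil => intro _; simp
    | cons a l ih =>
      intro hl
      have h1 := ih (fun ℓ hℓ => hl ℓ (List.mem_cons_of_mem _ hℓ))
      have h2 := hy a (hl a List.mem_cons_self)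
      simp only [List.map_cons, List.sum_cons, List.length_cons]
      rw [mul_add, h1, mul_one_div, h2]
      push_cast
      ring
  unfold rate gf bnd
  rw [mul_add, hsum _ G.lt]
  have h1 : (y : ℚ) * (((it.1 : ℚ) - 1) / q N) = ((it.1 : ℚ) - 1) * ((y : ℚ) / q N) := by ring
  rw [h1, hy N le_rfl]
  have h3 : (it.1 : ℚ) + it.2.1.length = 2 + m * it.2.2 := by
    have := G.eq
    exact_mod_cast this
  have h4 : (it.1 : ℚ) = 2 + m * it.2.2 - it.2.1.length := by linarith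
  have h5 : ((it.1 : ℚ) - 1 + it.2.1.length - 1) * (((m : ℚ) - 1) / m) =
      ((m : ℚ) - 1) * it.2.2 := by
    rw [h4]
    field_simp
    ring
  have hq := H.qpos (le_refl N)
  push_cast
  have h6 : ((it.1 : ℚ) - 1) * (k N + ((m : ℚ) - 1) / m +
      ((u N : ℚ) - ((m : ℚ) - 1) / m) / q N) = ((it.1 : ℚ) - 1) * k N +
      ((it.1 : ℚ) - 1) * (((m : ℚ) - 1) / m) +
      ((it.1 : ℚ) - 1) * ((u N : ℚ) - ((m : ℚ) - 1) / m) / q N := by ring
  rw [h6]
  linear_combination h5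

/-- The estimate. -/
theorem estimate (H : Modl m N q e) {it : Item} (G : GoodI m N it) {u : ℕ → ℤ}
    (hu : ∀ ℓ ≤ N, 0 ≤ u ℓ ∧ u ℓ ≤ 2 * m) :
    |(q N : ℚ) * gf m N q u it - 1 / 2 - hf m N u it| ≤ 1 / (4 * m) := by
  have hm := H.mpos
  have hqN := H.qpos (le_refl N)
  have herr : ∀ l : List ℕ, (∀ ℓ ∈ l, ℓ ≤ N) →
      |(q N : ℚ) * (l.map (fun ℓ => ((u ℓ : ℚ) - ((m : ℚ) - 1) / m) / q ℓ)).sum -
        (((l.map u).sum : ℤ) : ℚ) + l.length * (((m : ℚ) - 1) / m)| ≤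
        l.length * (1 / (12 * m)) := by
    intro l
    induction l with
    | nil => intro _; simp
    | cons a l ih =>
      intro hl
      have h1 := ih (fun ℓ hℓ => hl ℓ (List.mem_cons_of_mem _ hℓ))
      have ha := hl a List.mem_cons_self
      have hqa := H.qpos ha
      have h2 : |((u a : ℚ) - ((m : ℚ) - 1) / m) * ((q N - q a) / q a)| ≤ 1 / (12 * m) := by
        rw [abs_mul]
        have h3 : |(u a : ℚ) - ((m : ℚ) - 1) / m| ≤ 2 * m := by
          obtain ⟨h4, h5⟩ := hu a ha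
          have h4' : (0 : ℚ) ≤ u a := by exact_mod_cast h4
          have h5' : (u a : ℚ) ≤ 2 * m := by exact_mod_cast h5
          have h6 : 0 ≤ ((m : ℚ) - 1) / m := by
            have : (1 : ℚ) ≤ m := by
              have := H.m2
              have h7 : 1 ≤ m := by omega
              exact_mod_cast h7
            exact div_nonneg (by linarith) hm.le
          have h7 : ((m : ℚ) - 1) / m ≤ 1 := by
            rw [div_le_one hm]
            linarith
          have h8 : (1 : ℚ) ≤ m := by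
            have := H.m2
            have h7 : 1 ≤ m := by omega
            exact_mod_cast h7
          rw [abs_le]
          constructor <;> linarith
        have h9 : |((q N : ℚ) - q a) / q a| ≤ 1 / (24 * m ^ 2) := by
          have h10 : (q a : ℚ) ≤ q N := by exact_mod_cast H.le a ha
          have h11 : 24 * (m : ℚ) ^ 2 * (q N - q a) ≤ q a := by
            have h12 := H.close a ha
            have h13 : ((q N - q a : ℕ) : ℚ) = (q N : ℚ) - q a := Nat.cast_sub (H.le a ha)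
            rw [← h13]
            exact_mod_cast h12
          rw [abs_of_nonneg (div_nonneg (by linarith) hqa.le), div_le_div_iff₀ hqa (by positivity)]
          linarith
        calc |(u a : ℚ) - ((m : ℚ) - 1) / m| * |((q N : ℚ) - q a) / q a| ≤
            2 * m * (1 / (24 * m ^ 2)) := mul_le_mul h3 h9 (abs_nonneg _) (by positivity)
          _ = 1 / (12 * m) := by
            field_simp
            ring
      simp only [List.map_cons, List.sum_cons, List.length_cons]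
      have h14 : (q N : ℚ) * (((u a : ℚ) - ((m : ℚ) - 1) / m) / q a +
          (l.map (fun ℓ => ((u ℓ : ℚ) - ((m : ℚ) - 1) / m) / q ℓ)).sum) -
          ((u a + (l.map u).sum : ℤ) : ℚ) + ((l.length + 1 : ℕ) : ℚ) * (((m : ℚ) - 1) / m) =
          ((u a : ℚ) - ((m : ℚ) - 1) / m) * ((q N - q a) / q a) +
          ((q N : ℚ) * (l.map (fun ℓ => ((u ℓ : ℚ) - ((m : ℚ) - 1) / m) / q ℓ)).sum -
          (((l.map u).sum : ℤ) : ℚ) + l.length * (((m : ℚ) - 1) / m)) := by
        push_cast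
        field_simp
        ring
      rw [h14]
      refine (abs_add_le _ _).trans ?_
      have h15 : ((l.length + 1 : ℕ) : ℚ) * (1 / (12 * m)) =
          1 / (12 * m) + l.length * (1 / (12 * m)) := by
        rw [Nat.cast_add, Nat.cast_one]
        ring
      rw [h15]
      exact add_le_add h2 h1
  have h1 := herr it.2.1 G.lt
  have h2 : (q N : ℚ) * gf m N q u it - 1 / 2 - hf m N u it =
      (q N : ℚ) * (it.2.1.map (fun ℓ => ((u ℓ : ℚ) - ((m : ℚ) - 1) / m) / q ℓ)).sum -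
        (((it.2.1.map u).sum : ℤ) : ℚ) + it.2.1.length * (((m : ℚ) - 1) / m) := by
    have h3 : (it.1 : ℚ) + it.2.1.length = 2 + m * it.2.2 := by
      have := G.eq
      exact_mod_cast this
    have h4 : (it.1 : ℚ) = 2 + m * it.2.2 - it.2.1.length := by linarith
    unfold gf hf
    push_cast
    rw [h4]
    field_simp
    ring
  rw [h2]
  refine h1.trans ?_
  have h3 : (it.2.1.length : ℚ) ≤ 3 := by exact_mod_cast G.len
  calc (it.2.1.length : ℚ) * (1 / (12 * m)) ≤ 3 * (1 / (12 * m)) :=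
        mul_le_mul_of_nonneg_right h3 (by positivity)
    _ = 1 / (4 * m) := by
      field_simp
      ring

end Pool.Agent.H577R2.BJ
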