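import Pool.Agent.H577R2.BJ.Arith

/-!
# From residues to a linear system: the equivalence
-/

namespace Pool.Agent.H577R2.BJ

open Finset

/-- Conditions for the list of items. -/
structure GoodL (m N : ℕ) (its : List Item) : Prop where
  len : its.length + 1 = m
  good : ∀ it ∈ its, GoodI m N it
  unitN : ((2, [], 0) : Item) ∈ its
  unit : ∀ ℓ < N, ((1, [ℓ], 0) : Item) ∈ its

theorem sum_le_of {β : Type} (l : List β) (f : β → ℚ) (h : β → ℤ) (c : ℚ)
    (H : ∀ x ∈ l, f x ≤ c + h x) : (l.map f).sum ≤ l.length * c + (((l.map h).sum : ℤ) : ℚ) := by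
  induction l with
  | nil => simp
  | cons a l ih =>
    have h1 := ih (fun x hx => H x (List.mem_cons_of_mem _ hx))
    have h2 := H a List.mem_cons_self
    simp only [List.map_cons, List.sum_cons, List.length_cons]
    rw [Int.cast_add, Nat.cast_add, Nat.cast_one, add_mul, one_mul]
    linarith

theorem sum_ge_of {β : Type} (l : List β) (f : β → ℚ) (h : β → ℤ) (c : ℚ)
    (H : ∀ x ∈ l, c + h x ≤ f x) : l.length * c + (((l.map h).sum : ℤ) : ℚ) ≤ (l.map f).sum := by
  induction l with
  | nil => simp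
  | cons a l ih =>
    have h1 := ih (fun x hx => H x (List.mem_cons_of_mem _ hx))
    have h2 := H a List.mem_cons_self
    simp only [List.map_cons, List.sum_cons, List.length_cons]
    rw [Int.cast_add, Nat.cast_add, Nat.cast_one, add_mul, one_mul]
    linarith

theorem sum_mul_left' {β : Type} (l : List β) (f : β → ℚ) (c : ℚ) :
    (l.map (fun x => c * f x)).sum = c * (l.map f).sum := by
  induction l with
  | nil => simp
  | cons a l ih =>
    simp only [List.map_cons, List.sum_cons, ih]
    ring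

variable {m N : ℕ} {q e : ℕ → ℕ} {its : List Item}

theorem hf_unitN (u : ℕ → ℤ) : hf m N u ((2, [], 0) : Item) = u N := by
  simp [hf]

theorem hf_unit (u : ℕ → ℤ) (ℓ : ℕ) : hf m N u ((1, [ℓ], 0) : Item) = u ℓ := by
  simp [hf]

theorem GoodL.u_le (G : GoodL m N its) {u : ℕ → ℤ} (hu : ∀ it ∈ its, 0 ≤ hf m N u it)
    (hs : (its.map (hf m N u)).sum ≤ (m : ℤ) - 1) {ℓ : ℕ} (hℓ : ℓ ≤ N) :
    0 ≤ u ℓ ∧ u ℓ ≤ (m : ℤ) - 1 := by
  have hle : ∀ it ∈ its, hf m N u it ≤ (m : ℤ) - 1 := by
    intro it hit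
    refine le_trans (List.single_le_sum ?_ _ (List.mem_map_of_mem hit)) hs
    intro x hx
    rw [List.mem_map] at hx
    obtain ⟨it', h1, rfl⟩ := hx
    exact hu it' h1
  rcases Nat.lt_or_ge ℓ N with h | h
  · have h1 := hu _ (G.unit ℓ h)
    have h2 := hle _ (G.unit ℓ h)
    rw [hf_unit] at h1 h2
    exact ⟨h1, h2⟩
  · have h0 : ℓ = N := by omega
    subst h0
    have h1 := hu _ G.unitN
    have h2 := hle _ G.unitN
    rw [hf_unitN] at h1 h2
    exact ⟨h1, h2⟩

/-- From a solution of the linear system to a time. -/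
theorem exists_time (H : Modl m N q e) (G : GoodL m N its) {u : ℕ → ℤ}
    (hu : ∀ it ∈ its, 0 ≤ hf m N u it) (hs : (its.map (hf m N u)).sum ≤ (m : ℤ) - 1) :
    ∃ y : ℕ, y < ∏ ℓ ∈ range (N + 1), q ℓ ∧
      (its.map (fun it => fp ((y : ℚ) * rate q N it - bnd m (q N)))).sum <
        (3 * m - 2) / (2 * q N) := by
  have hm := H.mpos
  have hm2 : (2 : ℚ) ≤ m := by exact_mod_cast H.m2
  have hqN := H.qpos (le_refl N)
  have hub : ∀ ℓ ≤ N, 0 ≤ u ℓ ∧ u ℓ ≤ 2 * m := by
    intro ℓ hℓ
    have := G.u_le hu hs hℓ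
    omega
  -- the time
  have hs0 : ∀ i ∈ range (N + 1), q i ≠ 0 := by
    intro i hi
    rw [mem_range] at hi
    have := H.eq i (by omega)
    omega
  have hpp : Set.Pairwise (↑(range (N + 1))) (Function.onFun Nat.Coprime q) := by
    intro a ha b hb hab
    rw [mem_coe, mem_range] at ha hb
    exact H.cop a (by omega) b (by omega) hab
  obtain ⟨y, hyl, hyp⟩ : ∃ y, y < ∏ ℓ ∈ range (N + 1), q ℓ ∧
      ∀ i ∈ range (N + 1), y ≡ (m - 1) * e i + (u i).toNat [MOD q i] :=
    ⟨_, Nat.chineseRemainderOfFinset_lt_prod (fun ℓ => (m - 1) * e ℓ + (u ℓ).toNat) q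
      (t := range (N + 1)) hs0 hpp, (Nat.chineseRemainderOfFinset
      (fun ℓ => (m - 1) * e ℓ + (u ℓ).toNat) q (range (N + 1)) hs0 hpp).2⟩
  refine ⟨y, hyl, ?_⟩
  have hk : ∀ ℓ ≤ N, ∃ k : ℤ, (y : ℤ) = (m - 1) * e ℓ + u ℓ + k * q ℓ := by
    intro ℓ hℓ
    have h1 := hyp ℓ (mem_range.2 (by omega))
    have h2 := (Nat.modEq_iff_dvd.1 h1.symm)
    obtain ⟨k, hk⟩ := h2
    refine ⟨k, ?_⟩
    have h3 : ((u ℓ).toNat : ℤ) = u ℓ := Int.toNat_of_nonneg (hub ℓ hℓ).1
    have h4 : ((m - 1 : ℕ) : ℤ) = (m : ℤ) - 1 := by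
      have := H.m2
      omega
    push_cast at hk
    rw [h4] at hk
    have h5 : max (u ℓ) 0 = u ℓ := max_eq_left (hub ℓ hℓ).1
    first
      | (rw [h3] at hk; linarith)
      | (rw [h5] at hk; linarith)
  choose! k hk using hk
  -- all values of `g`
  have hpos : ∀ it ∈ its, 0 < gf m N q u it := by
    intro it hit
    have h1 := estimate H (G.good it hit) hub
    rw [abs_le] at h1
    have h2 : (0 : ℚ) ≤ hf m N u it := by exact_mod_cast hu it hit
    have h3 : (1 : ℚ) / (4 * m) ≤ 1 / 8 := by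
      rw [div_le_div_iff₀ (by positivity) (by norm_num)]
      linarith
    have h4 : 0 < (q N : ℚ) * gf m N q u it := by linarith [h1.1]
    by_contra hcon
    push Not at hcon
    have h5 := mul_nonpos_of_nonneg_of_nonpos hqN.le hcon
    linarith
  have hsum : (its.map (fun it => gf m N q u it)).sum < (3 * m - 2) / (2 * q N) := by
    have h1 := sum_le_of its (fun it => (q N : ℚ) * gf m N q u it) (hf m N u)
      (1 / 2 + 1 / (4 * m)) (by
        intro it hit
        have h1 := estimate H (G.good it hit) hub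
        rw [abs_le] at h1
        linarith [h1.2])
    rw [sum_mul_left'] at h1
    have h2 : (((its.map (hf m N u)).sum : ℤ) : ℚ) ≤ (m : ℚ) - 1 := by exact_mod_cast hs
    have h3 : (its.length : ℚ) = m - 1 := by
      have := G.len
      have h4 : (its.length : ℚ) + 1 = m := by exact_mod_cast this
      linarith
    rw [h3] at h1
    have h4 : ((m : ℚ) - 1) * (1 / (4 * m)) < 1 / 4 := by
      rw [mul_one_div, div_lt_div_iff₀ (by positivity) (by norm_num)]
      linarith
    rw [lt_div_iff₀ (by positivity)]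
    nlinarith
  have hτ : (3 * (m : ℚ) - 2) / (2 * q N) < 1 := by
    rw [div_lt_one (by positivity)]
    have h1 : (2 * m ^ 2 + 13 * m + 1 : ℚ) < q N := by exact_mod_cast H.big
    nlinarith
  have hfp : ∀ it ∈ its, fp ((y : ℚ) * rate q N it - bnd m (q N)) = gf m N q u it := by
    intro it hit
    have h1 := key_identity H (G.good it hit) (y := (y : ℤ)) (u := u) (k := k) hk
    push_cast at h1
    refine fp_eq ((((it.1 : ℤ) - 1) * k N + (it.2.1.map k).sum + ((m : ℤ) - 1) * it.2.2 : ℤ))
      ?_ (hpos it hit) ?_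
    · push_cast
      exact h1
    · have h2 : gf m N q u it ≤ (its.map (fun it => gf m N q u it)).sum := by
        refine List.single_le_sum ?_ _ (List.mem_map_of_mem hit)
        intro x hx
        rw [List.mem_map] at hx
        obtain ⟨it', h1, rfl⟩ := hx
        exact (hpos it' h1).le
      linarith
  have hmap : its.map (fun it => fp ((y : ℚ) * rate q N it - bnd m (q N))) =
      its.map (fun it => gf m N q u it) := List.map_congr_left hfp
  rw [hmap]
  exact hsum

/-- From a time to a solution of the linear system. -/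
theorem exists_sol (H : Modl m N q e) (G : GoodL m N its) {y : ℕ}
    (hy : (its.map (fun it => fp ((y : ℚ) * rate q N it - bnd m (q N)))).sum <
        (3 * m - 2) / (2 * q N)) :
    ∃ u : ℕ → ℤ, (∀ it ∈ its, 0 ≤ hf m N u it) ∧
      (its.map (hf m N u)).sum ≤ (m : ℤ) - 1 := by
  have hm := H.mpos
  have hm2 : (2 : ℚ) ≤ m := by exact_mod_cast H.m2
  have hqN := H.qpos (le_refl N)
  have hlt : ∀ it ∈ its, fp ((y : ℚ) * rate q N it - bnd m (q N)) < (3 * m - 2) / (2 * q N) := by
    intro it hit
    refine lt_of_le_of_lt ?_ hy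
    refine List.single_le_sum ?_ _ (List.mem_map_of_mem
      (f := fun it => fp ((y : ℚ) * rate q N it - bnd m (q N))) hit)
    intro x hx
    rw [List.mem_map] at hx
    obtain ⟨it', h1, rfl⟩ := hx
    exact (fp_pos _).le
  -- the values of `u`
  have hunit : ∀ ℓ ≤ N, fp ((y : ℚ) / q ℓ - bnd m (q N)) < (3 * m - 2) / (2 * q N) := by
    intro ℓ hℓ
    rcases Nat.lt_or_ge ℓ N with h | h
    · have h1 := hlt _ (G.unit ℓ h)
      have h2 : rate q N ((1, [ℓ], 0) : Item) = 1 / q ℓ := by simp [rate]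
      rw [h2, mul_one_div] at h1
      exact h1
    · have h0 : ℓ = N := by omega
      subst h0
      have h1 := hlt _ G.unitN
      have h2 : rate q ℓ ((2, [], 0) : Item) = 1 / q ℓ := by
        simp [rate]
        norm_num
      rw [h2, mul_one_div] at h1
      exact h1
  let k : ℕ → ℤ := fun ℓ => ⌈(y : ℚ) / q ℓ - bnd m (q N)⌉ - 1
  let u : ℕ → ℤ := fun ℓ => (y : ℤ) - (m - 1) * e ℓ - k ℓ * q ℓ
  have hk : ∀ ℓ ≤ N, (y : ℤ) = (m - 1) * e ℓ + u ℓ + k ℓ * q ℓ := by
    intro ℓ _
    simp only [u]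
    ring
  have hub : ∀ ℓ ≤ N, 0 ≤ u ℓ ∧ u ℓ ≤ 2 * m := by
    intro ℓ hℓ
    have hq := H.qpos hℓ
    have h1 := hunit ℓ hℓ
    have h2 := fp_pos ((y : ℚ) / q ℓ - bnd m (q N))
    have h3 : fp ((y : ℚ) / q ℓ - bnd m (q N)) = (y : ℚ) / q ℓ - bnd m (q N) - k ℓ := by
      simp only [fp, k]
      push_cast
      ring
    have h4 : (q ℓ : ℚ) = 1 + m * e ℓ := by
      have := H.eq ℓ hℓ
      exact_mod_cast this
    have h5 : (u ℓ : ℚ) = q ℓ * fp ((y : ℚ) / q ℓ - bnd m (q N)) -
        q ℓ * ((3 * m - 2) / (2 * m * q N)) + (m - 1) / m := by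
      rw [h3]
      simp only [u, bnd]
      push_cast
      have h6 : (e ℓ : ℚ) = ((q ℓ : ℚ) - 1) / m := by
        rw [h4]
        field_simp
        ring
      rw [h6]
      field_simp
      ring
    have h6 : (q ℓ : ℚ) ≤ q N := by exact_mod_cast H.le ℓ hℓ
    have h7 : (q ℓ : ℚ) * ((3 * m - 2) / (2 * m * q N)) ≤ (3 * m - 2) / (2 * m) := by
      have h8 : (q ℓ : ℚ) * ((3 * m - 2) / (2 * m * q N)) =
          (q ℓ / q N) * ((3 * m - 2) / (2 * m)) := by
        field_simp
      rw [h8]
      have h9 : (q ℓ : ℚ) / q N ≤ 1 := by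
        rw [div_le_one hqN]
        exact h6
      have h10 : 0 ≤ (3 * (m : ℚ) - 2) / (2 * m) := div_nonneg (by linarith) (by positivity)
      calc (q ℓ : ℚ) / q N * ((3 * m - 2) / (2 * m)) ≤ 1 * ((3 * m - 2) / (2 * m)) :=
            mul_le_mul_of_nonneg_right h9 h10
        _ = _ := one_mul _
    have h8 : 0 < (q ℓ : ℚ) * fp ((y : ℚ) / q ℓ - bnd m (q N)) := mul_pos hq h2
    have h9 : (q ℓ : ℚ) * fp ((y : ℚ) / q ℓ - bnd m (q N)) < (3 * m - 2) / 2 := by
      calc (q ℓ : ℚ) * fp ((y : ℚ) / q ℓ - bnd m (q N)) ≤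
          q N * fp ((y : ℚ) / q ℓ - bnd m (q N)) := mul_le_mul_of_nonneg_right h6 h2.le
        _ < q N * ((3 * m - 2) / (2 * q N)) := mul_lt_mul_of_pos_left h1 hqN
        _ = (3 * m - 2) / 2 := by
          field_simp
    constructor
    · have h10 : (-1 : ℚ) < u ℓ := by
        rw [h5]
        have h11 : ((m : ℚ) - 1) / m - (3 * m - 2) / (2 * m) = -1 / 2 := by
          field_simp
          ring
        linarith
      have h11 : (-1 : ℤ) < u ℓ := by exact_mod_cast h10
      omega
    · have h10 : (u ℓ : ℚ) < 2 * m := by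
        rw [h5]
        have h11 : ((m : ℚ) - 1) / m ≤ 1 := by
          rw [div_le_one hm]
          linarith
        have h12 : 0 ≤ (q ℓ : ℚ) * ((3 * m - 2) / (2 * m * q N)) :=
          mul_nonneg hq.le (div_nonneg (by linarith) (by positivity))
        linarith
      have h11 : u ℓ < 2 * m := by exact_mod_cast h10
      omega
  -- all values of `g`
  have hbig : (2 * m ^ 2 + 13 * m + 1 : ℚ) < q N := by exact_mod_cast H.big
  have hfp : ∀ it ∈ its, fp ((y : ℚ) * rate q N it - bnd m (q N)) = gf m N q u it := by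
    intro it hit
    have h1 := key_identity H (G.good it hit) (y := (y : ℤ)) (u := u) (k := k) hk
    rw [Int.cast_natCast] at h1
    set K : ℤ := ((it.1 : ℤ) - 1) * k N + (it.2.1.map k).sum + ((m : ℤ) - 1) * it.2.2 with hK
    set v : ℚ := (y : ℚ) * rate q N it - bnd m (q N) with hv
    have h2 : fp v - gf m N q u it = ((K - ⌈v⌉ + 1 : ℤ) : ℚ) := by
      unfold fp
      push_cast
      linarith
    have h3 := hlt it hit
    have h4 := fp_pos v
    have h5 := estimate H (G.good it hit) hub
    rw [abs_le] at h5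
    -- bound for `h`
    have hg := G.good it hit
    have h6 : |hf m N u it| ≤ 2 * m ^ 2 + 11 * m := by
      have h7 : 0 ≤ (it.2.1.map u).sum ∧ (it.2.1.map u).sum ≤ it.2.1.length * (2 * m) := by
        have h8 : ∀ l : List ℕ, (∀ ℓ ∈ l, ℓ ≤ N) → 0 ≤ (l.map u).sum ∧
            (l.map u).sum ≤ l.length * (2 * m) := by
          intro l
          induction l with
          | nil => intro _; simp
          | cons a l ih =>
            intro hl
            have h1 := ih (fun ℓ hℓ => hl ℓ (List.mem_cons_of_mem _ hℓ))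
            have h2 := hub a (hl a List.mem_cons_self)
            simp only [List.map_cons, List.sum_cons, List.length_cons]
            push_cast
            constructor
            · linarith [h1.1, h2.1]
            · linarith [h1.2, h2.2]
        exact h8 _ hg.lt
      have h8 : (it.2.1.length : ℤ) ≤ 3 := by exact_mod_cast hg.len
      have h9 : (it.2.1.length : ℤ) * (2 * m) ≤ 3 * (2 * m) :=
        mul_le_mul_of_nonneg_right h8 (by positivity)
      have h10 : (it.2.2 : ℤ) ≤ 1 := by exact_mod_cast hg.z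
      have h11 : (it.1 : ℤ) + it.2.1.length = 2 + m * it.2.2 := by exact_mod_cast hg.eq
      have h12 : (0 : ℤ) ≤ it.2.2 := by positivity
      have h13 : (1 : ℤ) ≤ m := by
        have := H.m2
        omega
      have h14 := hub N le_rfl
      have h15 : |((it.1 : ℤ) - 1) * u N| ≤ (m + 2) * (2 * m) := by
        rw [abs_mul]
        refine mul_le_mul ?_ ?_ (abs_nonneg _) (by positivity)
        · rw [abs_le]
          constructor
          · have : (0 : ℤ) ≤ it.1 := by positivity
            linarith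
          · have : (m : ℤ) * it.2.2 ≤ m * 1 := mul_le_mul_of_nonneg_left h10 (by positivity)
            have h16 : (0 : ℤ) ≤ it.2.1.length := by positivity
            linarith
        · rw [abs_of_nonneg h14.1]
          exact h14.2
      have h16 : |((m : ℤ) - 1) * it.2.2| ≤ m := by
        rw [abs_of_nonneg (mul_nonneg (by linarith) h12)]
        calc ((m : ℤ) - 1) * it.2.2 ≤ ((m : ℤ) - 1) * 1 :=
              mul_le_mul_of_nonneg_left h10 (by linarith)
          _ ≤ m := by linarith
      unfold hf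
      rw [abs_le] at h15 h16 ⊢
      constructor
      · nlinarith [h15.1, h16.2, h7.1]
      · nlinarith [h15.2, h16.1, h7.2]
    have h7 : |(hf m N u it : ℚ)| ≤ 2 * m ^ 2 + 11 * m := by exact_mod_cast h6
    rw [abs_le] at h7
    have h8 : (1 : ℚ) / (4 * m) ≤ 1 / 8 := by
      rw [div_le_div_iff₀ (by positivity) (by norm_num)]
      linarith
    have h9 : (q N : ℚ) * fp v < (3 * m - 2) / 2 := by
      calc (q N : ℚ) * fp v < q N * ((3 * m - 2) / (2 * q N)) := mul_lt_mul_of_pos_left h3 hqN
        _ = (3 * m - 2) / 2 := by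
          field_simp
    have h10 : 0 < (q N : ℚ) * fp v := mul_pos hqN h4
    have h11 : (q N : ℚ) * (fp v - gf m N q u it) < q N * 1 := by
      rw [mul_sub, mul_one]
      linarith [h5.1, h7.1]
    have h12 : (q N : ℚ) * (-1) < q N * (fp v - gf m N q u it) := by
      rw [mul_sub]
      linarith [h5.2, h7.2]
    have h13 := lt_of_mul_lt_mul_left h11 hqN.le
    have h14 := lt_of_mul_lt_mul_left h12 hqN.le
    rw [h2] at h13 h14
    have h15 : (K - ⌈v⌉ + 1 : ℤ) < 1 := by exact_mod_cast h13
    have h16 : (-1 : ℤ) < K - ⌈v⌉ + 1 := by exact_mod_cast h14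
    have h17 : K - ⌈v⌉ + 1 = 0 := by omega
    rw [h17, Int.cast_zero] at h2
    linarith
  refine ⟨u, fun it hit => ?_, ?_⟩
  · have h1 := estimate H (G.good it hit) hub
    have h2 := fp_pos ((y : ℚ) * rate q N it - bnd m (q N))
    rw [hfp it hit] at h2
    have h3 := mul_pos hqN h2
    rw [abs_le] at h1
    have h4 : (1 : ℚ) / (4 * m) ≤ 1 / 8 := by
      rw [div_le_div_iff₀ (by positivity) (by norm_num)]
      linarith
    have h5 : (-1 : ℚ) < hf m N u it := by linarith [h1.2]
    have h6 : (-1 : ℤ) < hf m N u it := by exact_mod_cast h5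
    omega
  · have hmap : its.map (fun it => fp ((y : ℚ) * rate q N it - bnd m (q N))) =
        its.map (fun it => gf m N q u it) := List.map_congr_left hfp
    rw [hmap] at hy
    have h1 := sum_ge_of its (fun it => (q N : ℚ) * gf m N q u it) (hf m N u)
      (1 / 2 - 1 / (4 * m)) (by
        intro it hit
        have h1 := estimate H (G.good it hit) hub
        rw [abs_le] at h1
        linarith [h1.1])
    rw [sum_mul_left'] at h1
    have h3 : (its.length : ℚ) = m - 1 := by
      have := G.len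
      have h4 : (its.length : ℚ) + 1 = m := by exact_mod_cast this
      linarith
    rw [h3] at h1
    have h4 : ((m : ℚ) - 1) * (1 / (4 * m)) < 1 / 4 := by
      rw [mul_one_div, div_lt_div_iff₀ (by positivity) (by norm_num)]
      linarith
    have h5 : (q N : ℚ) * (its.map (fun it => gf m N q u it)).sum < (3 * m - 2) / 2 := by
      calc (q N : ℚ) * (its.map (fun it => gf m N q u it)).sum <
          q N * ((3 * m - 2) / (2 * q N)) := mul_lt_mul_of_pos_left hy hqN
        _ = (3 * m - 2) / 2 := by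
          field_simp
    have h6 : (((its.map (hf m N u)).sum : ℤ) : ℚ) < m := by nlinarith
    have h7 : (its.map (hf m N u)).sum < (m : ℤ) := by exact_mod_cast h6
    omega

end Pool.Agent.H577R2.BJ
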