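import Pool.Agent.H577R2.BJ.Pair
import Pool.Agent.H577R2.BJ.Lin

/-!
# From the single-time conditions to `BJIT`
-/

namespace Pool.Agent.H577R2.BJ

open Finset

theorem sum_get (d : List ℕ) (f : ℕ → ℤ) : ∑ i : Fin d.length, f (d.get i) = (d.map f).sum := by
  rw [← List.sum_ofFn]
  congr 1
  apply List.ext_getElem
  · simp
  · intro i h1 h2
    simp

theorem sum_get_nat (d : List ℕ) : ∑ i : Fin d.length, d.get i = d.sum := by
  rw [← List.sum_ofFn]
  congr 1
  apply List.ext_getElem
  · simp
  · intro i h1 h2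
    simp

theorem card_get_ne (d : List ℕ) (d0 : ℕ) :
    (univ.filter (fun i : Fin d.length => d.get i ≠ d0)).card = (d.filter (fun x => x ≠ d0)).length := by
  rw [Finset.card_filter]
  have h1 : ∀ i : Fin d.length, ((if d.get i ≠ d0 then 1 else 0 : ℕ) : ℤ) =
      (fun x : ℕ => (if x ≠ d0 then 1 else 0 : ℤ)) (d.get i) := by
    intro i
    split_ifs <;> simp_all
  have h2 : ((∑ i : Fin d.length, (if d.get i ≠ d0 then 1 else 0) : ℕ) : ℤ) =
      ((d.filter (fun x => x ≠ d0)).length : ℤ) := by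
    rw [Nat.cast_sum, Finset.sum_congr rfl fun i _ => h1 i]
    refine (sum_get d (fun x : ℕ => (if x ≠ d0 then 1 else 0 : ℤ))).trans ?_
    clear h1
    induction d with
    | nil => simp
    | cons a l ih =>
      rw [List.map_cons, List.sum_cons, ih, List.filter_cons]
      by_cases h : a = d0
      · simp [h]
      · simp [h]
        ring
  exact_mod_cast h2

/-- For instances all but few of whose entries are minimal, `BJIT` is equivalent to the
single-time conditions. -/
theorem bjit_iff (d : List ℕ) (p q d0 : ℕ) (hne : d ≠ []) (hpos : ∀ x ∈ d, 0 < x) (hpq : p < q)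
    (hd0 : ∀ x ∈ d, d0 ≤ x) (hM : 2 * (q - p) * (d.filter (fun x => x ≠ d0)).length ≤ q) :
    BJIT (d, p, q) ↔ ∀ y ≤ d.sum,
      (d.map (fun x : ℕ => ⌈(y : ℚ) * ((x : ℚ) / d.sum) - (p : ℚ) / q⌉)).sum ≤ (y : ℤ) := by
  have hq : (0 : ℚ) < q := by
    have : 0 < q := by omega
    exact_mod_cast this
  have hB0 : (0 : ℚ) ≤ (p : ℚ) / q := by positivity
  have hB1 : (p : ℚ) / q < 1 := by
    rw [div_lt_one hq]
    exact_mod_cast hpq
  have hDpos : 0 < d.sum := by
    obtain ⟨a, l, rfl⟩ := List.exists_cons_of_ne_nil hne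
    have := hpos a List.mem_cons_self
    rw [List.sum_cons]
    omega
  have hDq : (0 : ℚ) < (d.sum : ℚ) := by exact_mod_cast hDpos
  constructor
  · rintro ⟨-, -, -, S, hS, hS2⟩ y hy
    have h1 : ∀ i, ∀ k ≤ d.sum, |(occ S i k : ℚ) - k * ((d.get i : ℚ) / d.sum)| ≤ (p : ℚ) / q := by
      intro i k hk
      rcases Nat.eq_zero_or_pos k with rfl | h0
      · have : occ S i 0 = 0 := by simp [occ]
        rw [this]
        simpa using hB0
      · exact hS2 i k h0 hk
    have h2 := single_of_word (d := fun i => d.get i) h1 y hy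
    rw [← sum_get d (fun x : ℕ => ⌈(y : ℚ) * ((x : ℚ) / d.sum) - (p : ℚ) / q⌉)]
    exact h2
  · intro h
    obtain ⟨S, hS⟩ := word_of_single (ι := Fin d.length) (d := fun i => d.get i) (D := d.sum)
      (sum_get_nat d) hDpos hB0 hB1 d0 (fun i => hd0 _ (List.get_mem _ _)) (by
        rw [card_get_ne]
        have h1 : (2 * ((q : ℚ) - p) * (d.filter (fun x => x ≠ d0)).length : ℚ) ≤ q := by
          have h2 : ((q - p : ℕ) : ℚ) = (q : ℚ) - p := Nat.cast_sub hpq.le
          rw [← h2]
          exact_mod_cast hM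
        have h3 : 2 * (1 - (p : ℚ) / q) * ((d.filter (fun x => x ≠ d0)).length : ℚ) =
            (2 * ((q : ℚ) - p) * (d.filter (fun x => x ≠ d0)).length : ℚ) / q := by
          field_simp
        rw [h3, div_le_one hq]
        exact h1) (by
        intro y hy
        rw [sum_get d (fun x : ℕ => ⌈(y : ℚ) * ((x : ℚ) / d.sum) - (p : ℚ) / q⌉)]
        exact h y hy)
    refine ⟨hne, hpos, by change 0 < q; omega, S, fun i => ?_, fun i k _ hk => hS i k hk⟩
    have h1 := hS i d.sum le_rfl
    rw [mul_div_cancel₀ _ hDq.ne'] at h1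
    have h2 := h1.trans_lt hB1
    rw [abs_lt] at h2
    have h3 : ((-1 : ℤ) : ℚ) < (((occ S i d.sum : ℤ) - (d.get i : ℤ) : ℤ) : ℚ) := by
      push_cast
      linarith [h2.1]
    have h4 : (((occ S i d.sum : ℤ) - (d.get i : ℤ) : ℤ) : ℚ) < ((1 : ℤ) : ℚ) := by
      push_cast
      linarith [h2.2]
    have h5 := Int.cast_lt.1 h3
    have h6 := Int.cast_lt.1 h4
    change occ S i d.sum = d.get i
    omega

/-- The single-time violation in terms of fractional parts. -/
theorem violation_iff {β : Type} (its : List β) (r : β → ℚ) {m : ℕ} (hlen : its.length + 1 = m)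
    (y : ℕ) (B τ : ℚ) (hτ : τ = m - 1 - m * B) :
    (y : ℤ) < (its.map (fun it => ⌈(y : ℚ) * r it - B⌉)).sum +
        ⌈(y : ℚ) * (1 - (its.map r).sum) - B⌉ ↔
      (its.map (fun it => fp ((y : ℚ) * r it - B))).sum < τ := by
  have h1 : (((its.map (fun it => ⌈(y : ℚ) * r it - B⌉)).sum : ℤ) : ℚ) =
      (y : ℚ) * (its.map r).sum - its.length * B + its.length -
        (its.map (fun it => fp ((y : ℚ) * r it - B))).sum := by
    clear hlen
    induction its with
    | nil => simp
    | cons a l ih =>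
      simp only [List.map_cons, List.sum_cons, List.length_cons]
      rw [Int.cast_add, ih]
      unfold fp
      push_cast
      ring
  have h2 : (y : ℤ) < (its.map (fun it => ⌈(y : ℚ) * r it - B⌉)).sum +
        ⌈(y : ℚ) * (1 - (its.map r).sum) - B⌉ ↔
      (y : ℤ) - (its.map (fun it => ⌈(y : ℚ) * r it - B⌉)).sum <
        ⌈(y : ℚ) * (1 - (its.map r).sum) - B⌉ := by
    constructor <;> intro h <;> linarith
  rw [h2, Int.lt_ceil, Int.cast_sub, h1]
  have h3 : (its.length : ℚ) = m - 1 := by
    have : (its.length : ℚ) + 1 = m := by exact_mod_cast hlen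
    linarith
  rw [h3, hτ]
  push_cast
  constructor <;> intro h <;> linarith

end Pool.Agent.H577R2.BJ
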