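import Pool.Agent.H577R2.Defs

/-!
# Bottleneck just-in-time sequencing: definitions
-/

namespace Pool.Agent.H577R2

open Finset

/-- The number of occurrences of the letter `i` among the first `k` letters of the word `S`. -/
def occ {D : ℕ} {ι : Type} [DecidableEq ι] (S : Fin D → ι) (i : ι) (k : ℕ) : ℕ :=
  (univ.filter (fun l : Fin D => (l : ℕ) < k ∧ S l = i)).card

/-- The decision problem `BJIT`.  An instance `(d, p, q)` consists of the list
`d = [d_1, ..., d_n]` of positive integers (`n ≥ 1`) and of the bound `B = p / q` (with `q > 0`);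
with `D = d_1 + ... + d_n`, the question is whether there is a word `S` of length `D` over the
alphabet `{1, ..., n}` in which every letter `i` occurs exactly `d_i` times, such that
`|x_{ik} - k d_i / D| ≤ B` for all `i` and all `1 ≤ k ≤ D`, where `x_{ik}` is the number of
occurrences of `i` among the first `k` letters. -/
def BJIT (I : List ℕ × ℕ × ℕ) : Prop :=
  I.1 ≠ [] ∧ (∀ x ∈ I.1, 0 < x) ∧ 0 < I.2.2 ∧
    ∃ S : Fin I.1.sum → Fin I.1.length,
      (∀ i, occ S i I.1.sum = I.1.get i) ∧
      ∀ i, ∀ k : ℕ, 1 ≤ k → k ≤ I.1.sum →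
        |(occ S i k : ℚ) - k * ((I.1.get i : ℚ) / I.1.sum)| ≤ (I.2.1 : ℚ) / I.2.2

end Pool.Agent.H577R2
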