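import Pool.Agent.H577R2.BJ.Defs

/-!
# Words with prescribed bounds for the numbers of occurrences
-/

namespace Pool.Agent.H577R2

open Finset

variable {ι : Type} [Fintype ι] [DecidableEq ι]

/-- Data: for every letter `i` the number `d i` of copies, and monotone bounds `lo i k`, `up i k`
for the number of copies among the first `k` letters. -/
structure Bds (d : ι → ℕ) (lo up : ι → ℕ → ℕ) (D : ℕ) : Prop where
  sum : ∑ i, d i = D
  loMono : ∀ i, Monotone (lo i)
  upMono : ∀ i, Monotone (up i)
  upZero : ∀ i, up i 0 = 0
  loTop : ∀ i, lo i D = d i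

/-- The slots allowed for the copy `j` of the letter `i`. -/
def win (d : ι → ℕ) (lo up : ι → ℕ → ℕ) (D : ℕ) (J : (i : ι) × Fin (d i)) : Finset ℕ :=
  (range D).filter (fun k => (J.2 : ℕ) < up J.1 (k + 1) ∧ lo J.1 k ≤ J.2)

theorem mem_win {d : ι → ℕ} {lo up : ι → ℕ → ℕ} {D : ℕ} {J : (i : ι) × Fin (d i)} {k : ℕ} :
    k ∈ win d lo up D J ↔ k < D ∧ (J.2 : ℕ) < up J.1 (k + 1) ∧ lo J.1 k ≤ J.2 := by
  simp [win]

/-- The interval condition. -/
def IntCond (lo up : ι → ℕ → ℕ) (D : ℕ) : Prop :=
  ∀ x y, x ≤ y → y ≤ D → ∑ i, (lo i y - up i x) ≤ y - x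

variable {d : ι → ℕ} {lo up : ι → ℕ → ℕ} {D : ℕ}

theorem win_nonempty (hb : Bds d lo up D) (hc : IntCond lo up D) (J : (i : ι) × Fin (d i)) :
    (win d lo up D J).Nonempty := by
  classical
  have hex : ∃ k, (J.2 : ℕ) < lo J.1 k := ⟨D, by rw [hb.loTop]; exact J.2.2⟩
  have hle : Nat.find hex ≤ D := Nat.find_min' hex (by rw [hb.loTop]; exact J.2.2)
  have hsp := Nat.find_spec hex
  have hz : ∀ x, x ≤ D → lo J.1 x ≤ up J.1 x := by
    intro x hx
    have h := hc x x le_rfl hx
    rw [Nat.sub_self, Nat.le_zero, Finset.sum_eq_zero_iff] at h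
    have h2 := h J.1 (mem_univ _)
    omega
  rcases Nat.eq_zero_or_pos (Nat.find hex) with h0 | h0
  · exfalso
    have h1 := hz 0 (Nat.zero_le _)
    rw [h0] at hsp
    rw [hb.upZero] at h1
    omega
  · obtain ⟨k, hk⟩ : ∃ k, Nat.find hex = k + 1 := ⟨Nat.find hex - 1, by omega⟩
    refine ⟨k, mem_win.2 ⟨by omega, ?_, ?_⟩⟩
    · have h1 := hz (k + 1) (by omega)
      rw [hk] at hsp
      omega
    · have h1 := Nat.find_min hex (m := k) (by omega)
      omega

theorem win_between {J : (i : ι) × Fin (d i)} (hb : Bds d lo up D) {a b k : ℕ}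
    (ha : a ∈ win d lo up D J) (hbm : b ∈ win d lo up D J) (hak : a ≤ k) (hkb : k ≤ b) :
    k ∈ win d lo up D J := by
  rw [mem_win] at ha hbm ⊢
  refine ⟨by omega, ?_, ?_⟩
  · exact lt_of_lt_of_le ha.2.1 (hb.upMono J.1 (by omega))
  · exact (hb.loMono J.1 hkb).trans hbm.2.2

theorem card_win_Ico (hb : Bds d lo up D) (hc : IntCond lo up D) {x y : ℕ} (hxy : x ≤ y)
    (hy : y ≤ D) :
    (univ.filter (fun J : (i : ι) × Fin (d i) => win d lo up D J ⊆ Ico x y)).card ≤ y - x := by
  classical
  refine le_trans ?_ (hc x y hxy hy)
  have h1 : univ.filter (fun J : (i : ι) × Fin (d i) => win d lo up D J ⊆ Ico x y) ⊆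
      (univ : Finset ι).sigma (fun i => univ.filter
        (fun j : Fin (d i) => up i x ≤ (j : ℕ) ∧ (j : ℕ) < lo i y)) := by
    intro J hJ
    rw [mem_filter] at hJ
    obtain ⟨k, hk⟩ := win_nonempty hb hc J
    have hkI := hJ.2 hk
    rw [Finset.mem_Ico] at hkI
    rw [mem_sigma, mem_filter]
    refine ⟨mem_univ _, mem_univ _, ?_, ?_⟩
    · by_contra hcon
      push Not at hcon
      have hx0 : x ≠ 0 := by
        rintro rfl
        rw [hb.upZero] at hcon
        omega
      obtain ⟨x', rfl⟩ : ∃ x', x = x' + 1 := ⟨x - 1, by omega⟩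
      rw [mem_win] at hk
      have hm : x' ∈ win d lo up D J := by
        rw [mem_win]
        exact ⟨by omega, hcon, (hb.loMono J.1 (by omega)).trans hk.2.2⟩
      have := hJ.2 hm
      rw [Finset.mem_Ico] at this
      omega
    · by_contra hcon
      push Not at hcon
      rw [mem_win] at hk
      have hyD : y ≠ D := by
        rintro rfl
        rw [hb.loTop] at hcon
        have := J.2.2
        omega
      have hm : y ∈ win d lo up D J := by
        rw [mem_win]
        exact ⟨by omega, lt_of_lt_of_le hk.2.1 (hb.upMono J.1 (by omega)), hcon⟩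
      have := hJ.2 hm
      rw [Finset.mem_Ico] at this
      omega
  refine (card_le_card h1).trans ?_
  rw [card_sigma]
  refine sum_le_sum fun i _ => ?_
  have h2 : (univ.filter (fun j : Fin (d i) => up i x ≤ (j : ℕ) ∧ (j : ℕ) < lo i y)).card ≤
      (Finset.Ico (up i x) (lo i y)).card := by
    refine card_le_card_of_injOn (fun j => (j : ℕ)) ?_ ?_
    · intro j hj
      rw [mem_coe, mem_filter] at hj
      rw [mem_coe, Finset.mem_Ico]
      exact hj.2
    · intro a _ b _ hab
      exact Fin.ext hab
  rw [Nat.card_Ico] at h2
  exact h2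

theorem card_win (hb : Bds d lo up D) (hc : IntCond lo up D) : ∀ y, y ≤ D → ∀ V : Finset ℕ,
    V ⊆ range y → (univ.filter (fun J : (i : ι) × Fin (d i) => win d lo up D J ⊆ V)).card ≤
      V.card := by
  classical
  intro y
  induction y using Nat.strong_induction_on with
  | _ y ih =>
    intro hy V hV
    rcases Nat.eq_zero_or_pos y with h0 | h0
    · have hV0 : V = ∅ := by
        rw [h0, range_zero, subset_empty] at hV
        exact hV
      rw [hV0, card_empty, Nat.le_zero, card_eq_zero, filter_eq_empty_iff]
      intro J _ hJ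
      obtain ⟨k, hk⟩ := win_nonempty hb hc J
      exact absurd (hJ hk) (notMem_empty _)
    · by_cases hm : y - 1 ∈ V
      · -- the maximal run ending at `y`
        have hex : ∃ x, Ico x y ⊆ V := ⟨y - 1, by
          intro k hk
          rw [Finset.mem_Ico] at hk
          have : k = y - 1 := by omega
          rw [this]
          exact hm⟩
        set x := Nat.find hex with hxdef
        have hx : Ico x y ⊆ V := Nat.find_spec hex
        have hxy : x ≤ y - 1 := Nat.find_min' hex (by
          intro k hk
          rw [Finset.mem_Ico] at hk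
          have : k = y - 1 := by omega
          rw [this]
          exact hm)
        have hx1 : x = 0 ∨ x - 1 ∉ V := by
          rcases Nat.eq_zero_or_pos x with h | h
          · exact Or.inl h
          · right
            intro hcon
            refine Nat.find_min hex (m := x - 1) (by omega) ?_
            intro k hk
            rw [Finset.mem_Ico] at hk
            rcases Nat.lt_or_ge k x with h2 | h2
            · have : k = x - 1 := by omega
              rw [this]
              exact hcon
            · exact hx (Finset.mem_Ico.2 ⟨h2, hk.2⟩)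
        have hsub : univ.filter (fun J : (i : ι) × Fin (d i) => win d lo up D J ⊆ V) ⊆
            univ.filter (fun J : (i : ι) × Fin (d i) => win d lo up D J ⊆ V ∩ range x) ∪
            univ.filter (fun J : (i : ι) × Fin (d i) => win d lo up D J ⊆ Ico x y) := by
          intro J hJ
          rw [mem_filter] at hJ
          rw [mem_union, mem_filter, mem_filter]
          by_cases h : ∃ k ∈ win d lo up D J, k < x
          · left
            refine ⟨mem_univ _, fun b hbm => ?_⟩
            rw [mem_inter, mem_range]
            refine ⟨hJ.2 hbm, ?_⟩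
            by_contra hcon
            obtain ⟨a, ha, hax⟩ := h
            have hx0 : x - 1 ∉ V := by
              rcases hx1 with h3 | h3
              · omega
              · exact h3
            exact hx0 (hJ.2 (win_between hb ha hbm (by omega) (by omega)))
          · right
            push Not at h
            refine ⟨mem_univ _, fun b hbm => ?_⟩
            rw [Finset.mem_Ico]
            exact ⟨h b hbm, mem_range.1 (hV (hJ.2 hbm))⟩
        refine (card_le_card hsub).trans ((card_union_le _ _).trans ?_)
        have h1 := ih x (by omega) (by omega) (V ∩ range x) inter_subset_right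
        have h2 := card_win_Ico hb hc (x := x) (y := y) (by omega) hy
        have h3 : (V ∩ range x).card + (y - x) ≤ V.card := by
          rw [← Nat.card_Ico x y, ← card_union_of_disjoint]
          · refine card_le_card (union_subset inter_subset_left hx)
          · rw [disjoint_left]
            intro k hk hk'
            rw [mem_inter, mem_range] at hk
            rw [Finset.mem_Ico] at hk'
            omega
        omega
      · refine ih (y - 1) (by omega) (by omega) V ?_
        intro k hk
        have h1 := mem_range.1 (hV hk)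
        rw [mem_range]
        rcases Nat.lt_or_ge k (y - 1) with h | h
        · exact h
        · exfalso
          have : k = y - 1 := by omega
          rw [this] at hk
          exact hm hk

/-- The interval condition suffices for the existence of a word. -/
theorem exists_word (hb : Bds d lo up D) (hc : IntCond lo up D) :
    ∃ S : Fin D → ι, ∀ i, ∀ k ≤ D, lo i k ≤ occ S i k ∧ occ S i k ≤ up i k := by
  classical
  have hall : ∀ s : Finset ((i : ι) × Fin (d i)), s.card ≤ (s.biUnion (win d lo up D)).card := by
    intro s
    refine le_trans (card_le_card ?_) (card_win hb hc D le_rfl (s.biUnion (win d lo up D)) ?_)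
    · intro J hJ
      rw [mem_filter]
      exact ⟨mem_univ _, subset_biUnion_of_mem (win d lo up D) hJ⟩
    · rw [biUnion_subset]
      intro J _ k hk
      rw [mem_win] at hk
      exact mem_range.2 hk.1
  rw [Finset.all_card_le_biUnion_card_iff_exists_injective] at hall
  obtain ⟨f, hf, hfm⟩ := hall
  have hfD : ∀ J, f J < D := fun J => (mem_win.1 (hfm J)).1
  let g : ((i : ι) × Fin (d i)) → Fin D := fun J => ⟨f J, hfD J⟩
  have hg : Function.Injective g := fun a b hab => hf (by
    have := congrArg Fin.val hab
    exact this)
  have hcard : Fintype.card ((i : ι) × Fin (d i)) = Fintype.card (Fin D) := by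
    rw [Fintype.card_sigma, Fintype.card_fin, ← hb.sum]
    simp
  have hbij : Function.Bijective g :=
    (Fintype.bijective_iff_injective_and_card g).2 ⟨hg, hcard⟩
  let e := Equiv.ofBijective g hbij
  refine ⟨fun l => (e.symm l).1, fun i k hk => ?_⟩
  have hocc : occ (fun l => (e.symm l).1) i k =
      (univ.filter (fun j : Fin (d i) => f ⟨i, j⟩ < k)).card := by
    unfold occ
    symm
    refine card_bij (fun j _ => g ⟨i, j⟩) ?_ ?_ ?_
    · intro j hj
      rw [mem_filter] at hj
      rw [mem_filter]
      refine ⟨mem_univ _, hj.2, ?_⟩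
      have : e.symm (g ⟨i, j⟩) = ⟨i, j⟩ := e.symm_apply_apply ⟨i, j⟩
      change (e.symm (g ⟨i, j⟩)).1 = i
      rw [this]
    · intro a _ b _ hab
      have := hg hab
      simpa using this
    · intro l hl
      rw [mem_filter] at hl
      obtain ⟨⟨i', j⟩, hj⟩ : ∃ J, e J = l := ⟨e.symm l, e.apply_symm_apply l⟩
      have h1 : (e.symm l).1 = i := hl.2.2
      rw [← hj, e.symm_apply_apply] at h1
      change i' = i at h1
      subst h1
      refine ⟨j, ?_, hj⟩
      rw [mem_filter]
      refine ⟨mem_univ _, ?_⟩
      have h2 := hl.2.1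
      rw [← hj] at h2
      exact h2
  rw [hocc]
  constructor
  · -- lower bound
    by_contra hcon
    push Not at hcon
    have hld : lo i k ≤ d i := by
      rw [← hb.loTop i]
      exact hb.loMono i hk
    have h1 : (Finset.range (lo i k)).card ≤
        (univ.filter (fun j : Fin (d i) => f ⟨i, j⟩ < k)).card := by
      rw [← card_image_of_injective (univ.filter (fun j : Fin (d i) => f ⟨i, j⟩ < k))
        Fin.val_injective]
      refine card_le_card ?_
      intro j hj
      rw [mem_range] at hj
      rw [mem_image]
      refine ⟨⟨j, by omega⟩, ?_, rfl⟩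
      rw [mem_filter]
      refine ⟨mem_univ _, ?_⟩
      by_contra hcon2
      push Not at hcon2
      have h2 := (mem_win.1 (hfm ⟨i, ⟨j, by omega⟩⟩)).2.2
      have h3 := hb.loMono i hcon2
      simp only at h2
      omega
    rw [card_range] at h1
    omega
  · have h1 : (univ.filter (fun j : Fin (d i) => f ⟨i, j⟩ < k)).card ≤
        (Finset.range (up i k)).card := by
      rw [← card_image_of_injective (univ.filter (fun j : Fin (d i) => f ⟨i, j⟩ < k))
        Fin.val_injective]
      refine card_le_card ?_
      intro j hj
      rw [mem_image] at hj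
      obtain ⟨j', hj', rfl⟩ := hj
      rw [mem_filter] at hj'
      rw [mem_range]
      have h2 := (mem_win.1 (hfm ⟨i, j'⟩)).2.1
      exact lt_of_lt_of_le h2 (hb.upMono i (by omega))
    rwa [card_range] at h1

omit [Fintype ι] in
theorem occ_mono {D : ℕ} (S : Fin D → ι) (i : ι) : Monotone (occ S i) := by
  intro a b hab
  unfold occ
  refine card_le_card ?_
  intro l hl
  rw [mem_filter] at hl ⊢
  exact ⟨hl.1, by omega, hl.2.2⟩

theorem sum_occ {D : ℕ} (S : Fin D → ι) {k : ℕ} (hk : k ≤ D) : ∑ i, occ S i k = k := by
  classical
  have h1 : (univ.filter (fun l : Fin D => (l : ℕ) < k)).card = k := by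
    rw [← card_image_of_injective _ Fin.val_injective]
    have : (univ.filter (fun l : Fin D => (l : ℕ) < k)).image Fin.val = range k := by
      ext j
      simp only [mem_image, mem_filter, mem_univ, true_and, mem_range]
      constructor
      · rintro ⟨a, ha, rfl⟩
        exact ha
      · intro hj
        exact ⟨⟨j, by omega⟩, hj, rfl⟩
    rw [this, card_range]
  have h2 := card_eq_sum_card_fiberwise (f := S) (s := univ.filter (fun l : Fin D => (l : ℕ) < k))
    (t := univ) (fun _ _ => mem_coe.2 (mem_univ _))
  rw [h1] at h2
  refine Eq.trans ?_ h2.symm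
  refine sum_congr rfl fun i _ => ?_
  unfold occ
  rw [filter_filter]

/-- The interval condition is necessary for the existence of a word. -/
theorem intCond_of_word {S : Fin D → ι}
    (hS : ∀ i, ∀ k ≤ D, lo i k ≤ occ S i k ∧ occ S i k ≤ up i k) : IntCond lo up D := by
  intro x y hxy hy
  have h1 := sum_occ S hy
  have h2 := sum_occ S (hxy.trans hy)
  have h3 : ∑ i, (lo i y - up i x) ≤ ∑ i, (occ S i y - occ S i x) := by
    refine sum_le_sum fun i _ => ?_
    have h4 := (hS i y hy).1
    have h5 := (hS i x (hxy.trans hy)).2
    omega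
  have h4 : ∑ i, (occ S i y - occ S i x) + ∑ i, occ S i x = ∑ i, occ S i y := by
    rw [← sum_add_distrib]
    refine sum_congr rfl fun i _ => ?_
    have := occ_mono S i hxy
    omega
  omega

end Pool.Agent.H577R2
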