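import Pool.Agent.H577R2.BJ.Bridge

/-!
# The instance built from a list of items
-/

namespace Pool.Agent.H577R2.BJ

open Finset

/-- The product of the moduli. -/
def DD (q : ℕ → ℕ) (N : ℕ) : ℕ := ∏ ℓ ∈ range (N + 1), q ℓ

/-- The cofactors. -/
def PP (q : ℕ → ℕ) (N ℓ : ℕ) : ℕ := DD q N / q ℓ

/-- The demand of an item. -/
def val (q : ℕ → ℕ) (N : ℕ) (it : Item) : ℕ :=
  it.1 * PP q N N + (it.2.1.map (PP q N)).sum - PP q N N

/-- The list of demands. -/
def dL (q : ℕ → ℕ) (N : ℕ) (its : List Item) : List ℕ :=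
  its.map (val q N) ++ [DD q N - (its.map (val q N)).sum]

/-- The numerator of the bound. -/
def pB (m Q : ℕ) : ℕ := 2 * (m - 1) * Q - (3 * m - 2)

/-- The denominator of the bound. -/
def qB (m Q : ℕ) : ℕ := 2 * m * Q

variable {m N : ℕ} {q e : ℕ → ℕ} {its : List Item}

theorem Modl.qposN (H : Modl m N q e) {ℓ : ℕ} (h : ℓ ≤ N) : 0 < q ℓ := by
  have := H.eq ℓ h
  omega

theorem Modl.dvd (_ : Modl m N q e) {ℓ : ℕ} (h : ℓ ≤ N) : q ℓ ∣ DD q N :=
  Finset.dvd_prod_of_mem q (mem_range.2 (by omega))

theorem Modl.DDpos (H : Modl m N q e) : 0 < DD q N :=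
  Finset.prod_pos fun i hi => H.qposN (by have := mem_range.1 hi; omega)

theorem Modl.PP_mul (H : Modl m N q e) {ℓ : ℕ} (h : ℓ ≤ N) : PP q N ℓ * q ℓ = DD q N :=
  Nat.div_mul_cancel (H.dvd h)

theorem Modl.PPpos (H : Modl m N q e) {ℓ : ℕ} (h : ℓ ≤ N) : 0 < PP q N ℓ := by
  have h1 := H.PP_mul h
  have h2 := H.DDpos
  rcases Nat.eq_zero_or_pos (PP q N ℓ) with h3 | h3
  · rw [h3, zero_mul] at h1
    omega
  · exact h3

theorem Modl.PP_cast (H : Modl m N q e) {ℓ : ℕ} (h : ℓ ≤ N) :
    (PP q N ℓ : ℚ) = DD q N * (1 / q ℓ) := by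
  have h1 := H.PP_mul h
  have h2 := H.qpos h
  have h3 : (PP q N ℓ : ℚ) * q ℓ = DD q N := by exact_mod_cast h1
  rw [mul_one_div, eq_div_iff h2.ne']
  exact h3

theorem Modl.PP_ge (H : Modl m N q e) {ℓ : ℕ} (h : ℓ ≤ N) : PP q N N ≤ PP q N ℓ :=
  Nat.div_le_div_left (H.le ℓ h) (H.qposN h)

theorem Modl.PP_le (H : Modl m N q e) {ℓ : ℕ} (h : ℓ ≤ N) : PP q N ℓ ≤ 2 * PP q N N := by
  have h1 := H.PP_mul h
  have h2 := H.PP_mul (le_refl N)
  have h3 := H.close ℓ h
  have h4 := H.m2
  have h5 : q N ≤ 2 * q ℓ := by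
    have h6 : 1 * (q N - q ℓ) ≤ 24 * m ^ 2 * (q N - q ℓ) :=
      Nat.mul_le_mul_right _ (by nlinarith)
    omega
  have h6 : PP q N ℓ * q ℓ ≤ (2 * PP q N N) * q ℓ := by
    rw [h1, ← h2]
    calc PP q N N * q N ≤ PP q N N * (2 * q ℓ) := Nat.mul_le_mul_left _ h5
      _ = 2 * PP q N N * q ℓ := by ring
  exact Nat.le_of_mul_le_mul_right h6 (H.qposN h)

theorem sum_PP_ge (H : Modl m N q e) : ∀ l : List ℕ, (∀ ℓ ∈ l, ℓ ≤ N) →
    l.length * PP q N N ≤ (l.map (PP q N)).sum := by
  intro l
  induction l with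
  | nil => intro _; simp
  | cons a l ih =>
    intro hl
    have h1 := ih (fun ℓ hℓ => hl ℓ (List.mem_cons_of_mem _ hℓ))
    have h2 := H.PP_ge (hl a List.mem_cons_self)
    simp only [List.map_cons, List.sum_cons, List.length_cons]
    rw [add_mul, one_mul]
    omega

theorem sum_PP_le (H : Modl m N q e) : ∀ l : List ℕ, (∀ ℓ ∈ l, ℓ ≤ N) →
    (l.map (PP q N)).sum ≤ 2 * l.length * PP q N N := by
  intro l
  induction l with
  | nil => intro _; simp
  | cons a l ih =>
    intro hl
    have h1 := ih (fun ℓ hℓ => hl ℓ (List.mem_cons_of_mem _ hℓ))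
    have h2 := H.PP_le (hl a List.mem_cons_self)
    simp only [List.map_cons, List.sum_cons, List.length_cons]
    have h3 : 2 * (l.length + 1) * PP q N N = 2 * l.length * PP q N N + 2 * PP q N N := by ring
    omega

theorem sum_PP_cast (H : Modl m N q e) : ∀ l : List ℕ, (∀ ℓ ∈ l, ℓ ≤ N) →
    (((l.map (PP q N)).sum : ℕ) : ℚ) = DD q N * (l.map (fun ℓ => 1 / (q ℓ : ℚ))).sum := by
  intro l
  induction l with
  | nil => intro _; simp
  | cons a l ih =>
    intro hl
    have h1 := ih (fun ℓ hℓ => hl ℓ (List.mem_cons_of_mem _ hℓ))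
    have h2 := H.PP_cast (hl a List.mem_cons_self)
    simp only [List.map_cons, List.sum_cons]
    rw [Nat.cast_add, h1, h2, mul_add]

theorem val_ge (H : Modl m N q e) {it : Item} (G : GoodI m N it) : PP q N N ≤ val q N it := by
  have h1 := sum_PP_ge H it.2.1 G.lt
  have h2 := G.eq
  have h3 : 2 * PP q N N ≤ it.1 * PP q N N + (it.2.1.map (PP q N)).sum := by
    calc 2 * PP q N N ≤ (it.1 + it.2.1.length) * PP q N N := by
          rw [h2]
          exact Nat.mul_le_mul_right _ (by omega)
      _ = it.1 * PP q N N + it.2.1.length * PP q N N := by ring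
      _ ≤ _ := by omega
  unfold val
  omega

theorem val_le (H : Modl m N q e) {it : Item} (G : GoodI m N it) :
    val q N it ≤ (m + 8) * PP q N N := by
  have h1 := sum_PP_le H it.2.1 G.lt
  have h2 := G.eq
  have h3 := G.len
  have h4 := G.z
  have h5 : m * it.2.2 ≤ m := by
    calc m * it.2.2 ≤ m * 1 := Nat.mul_le_mul_left _ h4
      _ = m := mul_one m
  have h6 : it.1 + 2 * it.2.1.length ≤ m + 8 := by omega
  have h7 : (it.1 + 2 * it.2.1.length) * PP q N N ≤ (m + 8) * PP q N N :=
    Nat.mul_le_mul_right _ h6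
  have h8 : (it.1 + 2 * it.2.1.length) * PP q N N =
      it.1 * PP q N N + 2 * it.2.1.length * PP q N N := by ring
  unfold val
  omega

theorem val_cast (H : Modl m N q e) {it : Item} (G : GoodI m N it) :
    (val q N it : ℚ) = DD q N * rate q N it := by
  have h1 := sum_PP_ge H it.2.1 G.lt
  have h2 := G.eq
  have h3 : PP q N N ≤ it.1 * PP q N N + (it.2.1.map (PP q N)).sum := by
    calc PP q N N ≤ (it.1 + it.2.1.length) * PP q N N := by
          rw [h2]
          exact Nat.le_mul_of_pos_left _ (by omega)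
      _ = it.1 * PP q N N + it.2.1.length * PP q N N := by ring
      _ ≤ _ := by omega
  unfold val rate
  rw [Nat.cast_sub h3, Nat.cast_add, Nat.cast_mul, sum_PP_cast H _ G.lt, H.PP_cast le_rfl]
  ring

theorem sum_val_le (H : Modl m N q e) (G : GoodL m N its) :
    (its.map (val q N)).sum + PP q N N ≤ DD q N := by
  have h1 : (its.map (val q N)).sum ≤ its.length * ((m + 8) * PP q N N) := by
    have : ∀ l : List Item, (∀ it ∈ l, GoodI m N it) →
        (l.map (val q N)).sum ≤ l.length * ((m + 8) * PP q N N) := by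
      intro l
      induction l with
      | nil => intro _; simp
      | cons a l ih =>
        intro hl
        have h1 := ih (fun ℓ hℓ => hl ℓ (List.mem_cons_of_mem _ hℓ))
        have h2 := val_le H (hl a List.mem_cons_self)
        simp only [List.map_cons, List.sum_cons, List.length_cons]
        rw [add_mul, one_mul]
        omega
    exact this its G.good
  have h2 : its.length * ((m + 8) * PP q N N) ≤ m * ((m + 8) * PP q N N) :=
    Nat.mul_le_mul_right _ (by have := G.len; omega)
  have h3 : m * ((m + 8) * PP q N N) + PP q N N = (m * (m + 8) + 1) * PP q N N := by ring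
  have h4 : (m * (m + 8) + 1) * PP q N N ≤ q N * PP q N N := by
    refine Nat.mul_le_mul_right _ ?_
    have := H.big
    nlinarith
  have h5 := H.PP_mul (le_refl N)
  rw [mul_comm] at h5
  omega

theorem dL_sum (H : Modl m N q e) (G : GoodL m N its) : (dL q N its).sum = DD q N := by
  have := sum_val_le H G
  unfold dL
  rw [List.sum_append, List.sum_cons, List.sum_nil]
  omega

theorem rate_sum_cast (H : Modl m N q e) (G : GoodL m N its) :
    ((DD q N - (its.map (val q N)).sum : ℕ) : ℚ) / DD q N = 1 - (its.map (rate q N)).sum := by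
  have h0 := sum_val_le H G
  have hD : (0 : ℚ) < DD q N := by exact_mod_cast H.DDpos
  have h1 : (((its.map (val q N)).sum : ℕ) : ℚ) = DD q N * (its.map (rate q N)).sum := by
    have : ∀ l : List Item, (∀ it ∈ l, GoodI m N it) →
        (((l.map (val q N)).sum : ℕ) : ℚ) = DD q N * (l.map (rate q N)).sum := by
      intro l
      induction l with
      | nil => intro _; simp
      | cons a l ih =>
        intro hl
        have h1 := ih (fun ℓ hℓ => hl ℓ (List.mem_cons_of_mem _ hℓ))
        have h2 := val_cast H (hl a List.mem_cons_self)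
        simp only [List.map_cons, List.sum_cons]
        rw [Nat.cast_add, h1, h2, mul_add]
    exact this its G.good
  rw [Nat.cast_sub (by omega), h1, div_eq_iff hD.ne']
  ring

theorem bnd_eq (H : Modl m N q e) : (pB m (q N) : ℚ) / (qB m (q N) : ℚ) = bnd m (q N) := by
  have hm := H.mpos
  have hq := H.qpos (le_refl N)
  have hm2 := H.m2
  have hbig := H.big
  have h1 : 3 * m - 2 ≤ 2 * (m - 1) * q N := by
    calc 3 * m - 2 ≤ q N := by
          have := Nat.sub_le (3 * m) 2
          nlinarith
      _ = 1 * q N := (one_mul _).symm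
      _ ≤ 2 * (m - 1) * q N := Nat.mul_le_mul_right _ (by omega)
  unfold pB qB bnd
  rw [Nat.cast_sub h1]
  push_cast [Nat.cast_sub (show 1 ≤ m by omega), Nat.cast_sub (show 2 ≤ 3 * m by omega)]
  field_simp

theorem pq_sub (H : Modl m N q e) : qB m (q N) - pB m (q N) = 2 * q N + (3 * m - 2) := by
  have hm2 := H.m2
  have hbig := H.big
  have h1 : 3 * m - 2 ≤ 2 * (m - 1) * q N := by
    calc 3 * m - 2 ≤ q N := by
          have := Nat.sub_le (3 * m) 2
          nlinarith
      _ = 1 * q N := (one_mul _).symm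
      _ ≤ 2 * (m - 1) * q N := Nat.mul_le_mul_right _ (by omega)
  unfold pB qB
  obtain ⟨m', rfl⟩ : ∃ m', m = m' + 1 := ⟨m - 1, by omega⟩
  rw [Nat.add_sub_cancel] at *
  have h2 : 2 * (m' + 1) * q N = 2 * m' * q N + 2 * q N := by ring
  omega

/-- The main property of the instance. -/
theorem main_inst (H : Modl m N q e) (G : GoodL m N its)
    (hfew : 4 * ((its.filter (fun it => it ≠ (2, [], 0))).length + 1) ≤ m) :
    ¬ BJIT (dL q N its, pB m (q N), qB m (q N)) ↔
      ∃ u : ℕ → ℤ, (∀ it ∈ its, 0 ≤ hf m N u it) ∧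
        (its.map (hf m N u)).sum ≤ (m : ℤ) - 1 := by
  have hm2 := H.m2
  have hbig := H.big
  have hsum := sum_val_le H G
  have hPN := H.PPpos (le_refl N)
  have hge : ∀ x ∈ dL q N its, PP q N N ≤ x := by
    intro x hx
    unfold dL at hx
    rw [List.mem_append, List.mem_map, List.mem_singleton] at hx
    rcases hx with ⟨it, hit, rfl⟩ | rfl
    · exact val_ge H (G.good it hit)
    · omega
  have hpq : pB m (q N) < qB m (q N) := by
    have := pq_sub H
    have := H.qposN (le_refl N)
    omega
  have hD : (0 : ℚ) < DD q N := by exact_mod_cast H.DDpos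
  have hfilter : ((dL q N its).filter (fun x => x ≠ PP q N N)).length ≤
      (its.filter (fun it => it ≠ (2, [], 0))).length + 1 := by
    unfold dL
    rw [List.filter_append, List.length_append]
    refine add_le_add ?_ ?_
    · rw [List.filter_map, List.length_map]
      refine (List.Sublist.length_le ?_)
      refine List.monotone_filter_right its ?_
      intro it hit
      have h1 : val q N it ≠ PP q N N := of_decide_eq_true hit
      refine decide_eq_true ?_
      rintro rfl
      apply h1
      unfold val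
      simp
      omega
    · exact List.length_filter_le _ _
  rw [bjit_iff (dL q N its) (pB m (q N)) (qB m (q N)) (PP q N N) ?_ ?_ hpq hge ?_]
  · rw [dL_sum H G, bnd_eq H]
    have hkey : ∀ y : ℕ, ((dL q N its).map (fun x : ℕ =>
        ⌈(y : ℚ) * ((x : ℚ) / DD q N) - bnd m (q N)⌉)).sum =
        (its.map (fun it => ⌈(y : ℚ) * rate q N it - bnd m (q N)⌉)).sum +
          ⌈(y : ℚ) * (1 - (its.map (rate q N)).sum) - bnd m (q N)⌉ := by
      intro y
      unfold dL
      rw [List.map_append, List.sum_append, List.map_map, List.map_singleton, List.sum_singleton,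
        rate_sum_cast H G]
      congr 2
      refine List.map_congr_left fun it hit => ?_
      rw [Function.comp_apply, val_cast H (G.good it hit), mul_div_cancel_left₀ _ hD.ne']
    have hτ : (3 * (m : ℚ) - 2) / (2 * q N) = m - 1 - m * bnd m (q N) := by
      have hm := H.mpos
      have hq := H.qpos (le_refl N)
      unfold bnd
      field_simp
      ring
    constructor
    · intro h
      push Not at h
      obtain ⟨y, _, hy⟩ := h
      rw [hkey, violation_iff its (rate q N) G.len y (bnd m (q N)) _ hτ] at hy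
      exact exists_sol H G hy
    · rintro ⟨u, hu, hs⟩
      obtain ⟨y, hy1, hy2⟩ := exists_time H G hu hs
      push Not
      refine ⟨y, hy1.le, ?_⟩
      rw [hkey, violation_iff its (rate q N) G.len y (bnd m (q N)) _ hτ]
      exact hy2
  · unfold dL
    simp
  · intro x hx
    have := hge x hx
    omega
  · rw [pq_sub H]
    have h1 : 2 * (2 * q N + (3 * m - 2)) * ((dL q N its).filter
        (fun x => x ≠ PP q N N)).length ≤ 2 * (2 * q N + (3 * m - 2)) *
        ((its.filter (fun it => it ≠ (2, [], 0))).length + 1) := Nat.mul_le_mul_left _ hfilter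
    have h2 : 2 * q N + (3 * m - 2) ≤ 4 * q N := by
      have := Nat.sub_le (3 * m) 2
      nlinarith
    have h3 : 2 * (2 * q N + (3 * m - 2)) *
        ((its.filter (fun it => it ≠ (2, [], 0))).length + 1) ≤ 2 * (4 * q N) *
        ((its.filter (fun it => it ≠ (2, [], 0))).length + 1) :=
      Nat.mul_le_mul_right _ (Nat.mul_le_mul_left _ h2)
    have h4 : 2 * (4 * q N) * ((its.filter (fun it => it ≠ (2, [], 0))).length + 1) =
        2 * q N * (4 * ((its.filter (fun it => it ≠ (2, [], 0))).length + 1)) := by ring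
    have h5 : 2 * q N * (4 * ((its.filter (fun it => it ≠ (2, [], 0))).length + 1)) ≤
        2 * q N * m := Nat.mul_le_mul_left _ hfew
    have h6 : 2 * q N * m = qB m (q N) := by
      unfold qB
      ring
    omega

end Pool.Agent.H577R2.BJ
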