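import Pool.Agent.H577R2.BJ.PolyB
import Pool.Agent.H622R2.CoNP

/-!
# `BJIT` is in `co-NP`
-/

namespace Pool.Agent.H577R2.BJ

open Finset

/-- The lower bound for the number of copies among the first `k` letters. -/
def loV (D p q k x : ℕ) : ℕ := if D ≤ k then x else (k * x * q - p * D + (q * D - 1)) / (q * D)

/-- The upper bound for the number of copies among the first `k` letters. -/
def upV (D p q k x : ℕ) : ℕ := if k = 0 then 0 else (k * x * q + p * D) / (q * D)

theorem loV_le_iff {D p q k x o : ℕ} (hD : 0 < D) (hq : 0 < q) (hk : k < D) :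
    loV D p q k x ≤ o ↔ k * x * q ≤ o * (q * D) + p * D := by
  have hc : 0 < q * D := Nat.mul_pos hq hD
  unfold loV
  rw [if_neg (by omega), ← Nat.lt_add_one_iff, Nat.div_lt_iff_lt_mul hc, add_mul, one_mul]
  omega

theorem le_upV_iff {D p q k x o : ℕ} (hD : 0 < D) (hq : 0 < q) (hk : k ≠ 0) :
    o ≤ upV D p q k x ↔ o * (q * D) ≤ k * x * q + p * D := by
  have hc : 0 < q * D := Nat.mul_pos hq hD
  unfold upV
  rw [if_neg hk, Nat.le_div_iff_mul_le hc]

theorem rat_lo {D p q k x o : ℕ} (hD : 0 < D) (hq : 0 < q) :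
    k * x * q ≤ o * (q * D) + p * D ↔ (k : ℚ) * ((x : ℚ) / D) - (o : ℚ) ≤ (p : ℚ) / q := by
  have hD' : (0 : ℚ) < D := by exact_mod_cast hD
  have hq' : (0 : ℚ) < q := by exact_mod_cast hq
  have h1 : (k : ℚ) * ((x : ℚ) / D) - (o : ℚ) = (k * x - o * D) / D := by
    field_simp
  rw [h1, div_le_div_iff₀ hD' hq']
  constructor
  · intro h
    have : ((k * x * q : ℕ) : ℚ) ≤ ((o * (q * D) + p * D : ℕ) : ℚ) := by exact_mod_cast h
    push_cast at this
    linarith
  · intro h
    have : ((k * x * q : ℕ) : ℚ) ≤ ((o * (q * D) + p * D : ℕ) : ℚ) := by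
      push_cast
      linarith
    exact_mod_cast this

theorem rat_up {D p q k x o : ℕ} (hD : 0 < D) (hq : 0 < q) :
    o * (q * D) ≤ k * x * q + p * D ↔ (o : ℚ) - (k : ℚ) * ((x : ℚ) / D) ≤ (p : ℚ) / q := by
  have hD' : (0 : ℚ) < D := by exact_mod_cast hD
  have hq' : (0 : ℚ) < q := by exact_mod_cast hq
  have h1 : (o : ℚ) - (k : ℚ) * ((x : ℚ) / D) = (o * D - k * x) / D := by
    field_simp
  rw [h1, div_le_div_iff₀ hD' hq']
  constructor
  · intro h
    have : ((o * (q * D) : ℕ) : ℚ) ≤ ((k * x * q + p * D : ℕ) : ℚ) := by exact_mod_cast h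
    push_cast at this
    linarith
  · intro h
    have : ((o * (q * D) : ℕ) : ℚ) ≤ ((k * x * q + p * D : ℕ) : ℚ) := by
      push_cast
      linarith
    exact_mod_cast this

theorem bds (d : List ℕ) (p q : ℕ) (hD : 0 < d.sum) (hq : 0 < q) :
    Bds (fun i : Fin d.length => d.get i) (fun i k => loV d.sum p q k (d.get i))
      (fun i k => upV d.sum p q k (d.get i)) d.sum where
  sum := sum_get_nat d
  loMono := by
    intro i a b hab
    change loV d.sum p q a (d.get i) ≤ loV d.sum p q b (d.get i)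
    rcases Nat.lt_or_ge a d.sum with ha | ha
    · rw [loV_le_iff hD hq ha]
      rcases Nat.lt_or_ge b d.sum with hb | hb
      · have h1 := (loV_le_iff (p := p) (x := d.get i) hD hq hb).1 le_rfl
        refine le_trans ?_ h1
        gcongr
      · have h1 : loV d.sum p q b (d.get i) = d.get i := by
          unfold loV
          rw [if_pos hb]
        rw [h1]
        calc a * d.get i * q ≤ d.sum * d.get i * q := by gcongr
          _ = d.get i * (q * d.sum) := by ring
          _ ≤ _ := Nat.le_add_right _ _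
    · have h1 : loV d.sum p q b (d.get i) = d.get i := by
        unfold loV
        rw [if_pos (by omega)]
      have h2 : loV d.sum p q a (d.get i) = d.get i := by
        unfold loV
        rw [if_pos ha]
      rw [h1, h2]
  upMono := by
    intro i a b hab
    change upV d.sum p q a (d.get i) ≤ upV d.sum p q b (d.get i)
    rcases Nat.eq_zero_or_pos a with ha | ha
    · have : upV d.sum p q a (d.get i) = 0 := by
        unfold upV
        rw [if_pos ha]
      rw [this]
      exact Nat.zero_le _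
    · rw [le_upV_iff hD hq (by omega)]
      have h1 := (le_upV_iff (p := p) (x := d.get i) (k := a) hD hq (by omega)).1 le_rfl
      refine h1.trans ?_
      gcongr
  upZero := by
    intro i
    simp [upV]
  loTop := by
    intro i
    simp [loV]

/-- The criterion for `BJIT`. -/
theorem bjit_iff_crit (d : List ℕ) (p q : ℕ) (hne : d ≠ []) (hpos : ∀ x ∈ d, 0 < x)
    (hq : 0 < q) : BJIT (d, p, q) ↔ ∀ x y, x ≤ y → y ≤ d.sum →
      (d.map (fun v => loV d.sum p q y v - upV d.sum p q x v)).sum ≤ y - x := by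
  have hD : 0 < d.sum := by
    obtain ⟨a, l, rfl⟩ := List.exists_cons_of_ne_nil hne
    have := hpos a List.mem_cons_self
    rw [List.sum_cons]
    omega
  have hsum : ∀ x y, ∑ i : Fin d.length, (loV d.sum p q y (d.get i) - upV d.sum p q x (d.get i)) =
      (d.map (fun v => loV d.sum p q y v - upV d.sum p q x v)).sum := by
    intro x y
    have h1 := sum_get d (fun v => ((loV d.sum p q y v - upV d.sum p q x v : ℕ) : ℤ))
    have h2 : (((d.map (fun v => loV d.sum p q y v - upV d.sum p q x v)).sum : ℕ) : ℤ) =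
        (d.map (fun v => ((loV d.sum p q y v - upV d.sum p q x v : ℕ) : ℤ))).sum := by
      rw [Nat.cast_list_sum, List.map_map]
      rfl
    rw [← Nat.cast_sum] at h1
    rw [← h2] at h1
    exact_mod_cast h1
  have hb := bds d p q hD hq
  constructor
  · rintro ⟨-, -, -, S, hS, hS2⟩ x y hxy hy
    rw [← hsum]
    refine intCond_of_word (S := S) (lo := fun i k => loV d.sum p q k (d.get i))
      (up := fun i k => upV d.sum p q k (d.get i)) ?_ x y hxy hy
    intro i k hk
    change loV d.sum p q k (d.get i) ≤ occ S i k ∧ occ S i k ≤ upV d.sum p q k (d.get i)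
    rcases Nat.eq_zero_or_pos k with hk0 | hk0
    · subst hk0
      have h0 : occ S i 0 = 0 := by simp [occ]
      rw [h0]
      refine ⟨?_, Nat.zero_le _⟩
      rw [loV_le_iff hD hq hD]
      simp
    · have h1 := hS2 i k hk0 hk
      rw [abs_le] at h1
      constructor
      · rcases Nat.lt_or_ge k d.sum with hkD | hkD
        · rw [loV_le_iff hD hq hkD, rat_lo hD hq]
          have h2 := h1.1
          change (k : ℚ) * ((d.get i : ℚ) / d.sum) - (occ S i k : ℚ) ≤ (p : ℚ) / q
          change -((p : ℚ) / q) ≤ (occ S i k : ℚ) - k * ((d.get i : ℚ) / d.sum) at h2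
          linarith
        · have h2 : k = d.sum := le_antisymm hk hkD
          rw [h2]
          have h3 : loV d.sum p q d.sum (d.get i) = d.get i := by simp [loV]
          rw [h3]
          exact (hS i).ge
      · rw [le_upV_iff hD hq (by omega), rat_up hD hq]
        exact h1.2
  · intro h
    have hc : IntCond (fun (i : Fin d.length) k => loV d.sum p q k (d.get i))
        (fun i k => upV d.sum p q k (d.get i)) d.sum := by
      intro x y hxy hy
      change ∑ i : Fin d.length,
        (loV d.sum p q y (d.get i) - upV d.sum p q x (d.get i)) ≤ y - x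
      rw [hsum]
      exact h x y hxy hy
    obtain ⟨S, hS⟩ := exists_word hb hc
    have hfin : ∀ i, occ S i d.sum = d.get i := by
      have h1 : ∀ i, d.get i ≤ occ S i d.sum := by
        intro i
        have h2 := (hS i d.sum le_rfl).1
        have h3 : loV d.sum p q d.sum (d.get i) = d.get i := by simp [loV]
        rwa [h3] at h2
      have h2 := sum_occ S (le_refl d.sum)
      have h3 := sum_get_nat d
      have h4 : ∑ i : Fin d.length, d.get i = ∑ i, occ S i d.sum := by rw [h2, h3]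
      intro i
      have h5 := (Finset.sum_eq_sum_iff_of_le (fun i _ => h1 i)).1 h4 i (mem_univ _)
      exact h5.symm
    refine ⟨hne, hpos, hq, S, hfin, fun i k hk1 hk => ?_⟩
    have h1 := hS i k hk
    change |(occ S i k : ℚ) - k * ((d.get i : ℚ) / d.sum)| ≤ (p : ℚ) / q
    rw [abs_le]
    constructor
    · rcases Nat.lt_or_ge k d.sum with hkD | hkD
      · have h2 := (rat_lo hD hq).1 ((loV_le_iff hD hq hkD).1 h1.1)
        linarith
      · have h2 : k = d.sum := le_antisymm hk hkD
        have hD' : (0 : ℚ) < (d.sum : ℚ) := by exact_mod_cast hD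
        rw [h2, hfin, mul_div_cancel₀ _ hD'.ne', sub_self]
        have : (0 : ℚ) ≤ (p : ℚ) / q := by positivity
        linarith
    · exact (rat_up hD hq).1 ((le_upV_iff hD hq (by omega)).1 h1.2)

end Pool.Agent.H577R2.BJ

namespace Pool.Agent.NPC.H577R2

open Pool.Agent.H577R2 Pool.Agent.H577R2.BJ Pool.Agent.H622R2

/-- The verifier for the complement. -/
def verB (a : (List ℕ × ℕ × ℕ) × ℕ × ℕ) : Bool :=
  decide (a.1.1.length = 0) || (a.1.1.any (fun x => decide (x = 0)) || (decide (a.1.2.2 = 0) ||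
    (decide (a.2.1 ≤ a.2.2) && (decide (a.2.2 ≤ a.1.1.sum) && decide (a.2.2 - a.2.1 <
      (a.1.1.map (fun v => loV a.1.1.sum a.1.2.1 a.1.2.2 a.2.2 v -
        upV a.1.1.sum a.1.2.1 a.1.2.2 a.2.1 v)).sum)))))

theorem poly_verB : Poly verB := by
  have hd : Poly (fun a : (List ℕ × ℕ × ℕ) × ℕ × ℕ => a.1.1) := Poly.fst (Poly.fst Poly.id)
  have hp : Poly (fun a : (List ℕ × ℕ × ℕ) × ℕ × ℕ => a.1.2.1) :=
    Poly.fst (Poly.snd (Poly.fst Poly.id))
  have hq : Poly (fun a : (List ℕ × ℕ × ℕ) × ℕ × ℕ => a.1.2.2) :=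
    Poly.snd (Poly.snd (Poly.fst Poly.id))
  have hx : Poly (fun a : (List ℕ × ℕ × ℕ) × ℕ × ℕ => a.2.1) := Poly.fst (Poly.snd Poly.id)
  have hy : Poly (fun a : (List ℕ × ℕ × ℕ) × ℕ × ℕ => a.2.2) := Poly.snd (Poly.snd Poly.id)
  have hD : Poly (fun a : (List ℕ × ℕ × ℕ) × ℕ × ℕ => a.1.1.sum) := Poly.sum hd
  have hf : Poly (fun b : ((List ℕ × ℕ × ℕ) × ℕ × ℕ) × ℕ => b.1) := Poly.fst Poly.id
  have hv : Poly (fun b : ((List ℕ × ℕ × ℕ) × ℕ × ℕ) × ℕ => b.2) := Poly.snd Poly.id
  have hlo : Poly (fun b : ((List ℕ × ℕ × ℕ) × ℕ × ℕ) × ℕ =>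
      loV b.1.1.1.sum b.1.1.2.1 b.1.1.2.2 b.1.2.2 b.2) := by
    refine Poly.ite (Poly.decide_le (hD.comp hf) (hy.comp hf)) hv ?_
    have hc : Poly (fun b : ((List ℕ × ℕ × ℕ) × ℕ × ℕ) × ℕ => b.1.1.2.2 * b.1.1.1.sum) :=
      Poly.mul (hq.comp hf) (hD.comp hf)
    exact Poly.div (Poly.add (Poly.sub (Poly.mul (Poly.mul (hy.comp hf) hv) (hq.comp hf))
      (Poly.mul (hp.comp hf) (hD.comp hf))) (Poly.sub hc (Poly.const 1))) hc
  have hup : Poly (fun b : ((List ℕ × ℕ × ℕ) × ℕ × ℕ) × ℕ =>
      upV b.1.1.1.sum b.1.1.2.1 b.1.1.2.2 b.1.2.1 b.2) := by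
    refine Poly.ite (Poly.decide_eq (hx.comp hf) (Poly.const 0)) (Poly.const 0) ?_
    have hc : Poly (fun b : ((List ℕ × ℕ × ℕ) × ℕ × ℕ) × ℕ => b.1.1.2.2 * b.1.1.1.sum) :=
      Poly.mul (hq.comp hf) (hD.comp hf)
    exact Poly.div (Poly.add (Poly.mul (Poly.mul (hx.comp hf) hv) (hq.comp hf))
      (Poly.mul (hp.comp hf) (hD.comp hf))) hc
  refine Poly.or (Poly.decide_eq (Poly.length hd) (Poly.const 0)) (Poly.or
    (Poly.any (p := fun _ x => decide (x = 0)) hd (Poly.decide_eq (Poly.snd Poly.id)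
      (Poly.const 0))) (Poly.or (Poly.decide_eq hq (Poly.const 0)) (Poly.and
    (Poly.decide_le hx hy) (Poly.and (Poly.decide_le hy hD) (Poly.decide_lt (Poly.sub hy hx)
    (Poly.sum (Poly.map (F := fun (a : (List ℕ × ℕ × ℕ) × ℕ × ℕ) v =>
      loV a.1.1.sum a.1.2.1 a.1.2.2 a.2.2 v - upV a.1.1.sum a.1.2.1 a.1.2.2 a.2.1 v) hd
      (Poly.sub hlo hup))))))))

/-- `BJIT` is in `co-NP`. -/
theorem bjit_inCoNP : InCoNPP BJIT := by
  obtain ⟨r, hr⟩ := (Poly.sum (Poly.fst (Poly.id (α := List ℕ × ℕ × ℕ)))).sz_le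
  refine inCoNPP_of poly_verB (Polynomial.C 4 * r + Polynomial.C 4) ?_
  rintro ⟨d, p, q⟩
  have hr' : sz d.sum ≤ r.eval (sz (d, p, q)) := hr (d, p, q)
  have h00 : sz ((0, 0) : ℕ × ℕ) ≤ (Polynomial.C 4 * r + Polynomial.C 4).eval (sz (d, p, q)) := by
    have : sz ((0, 0) : ℕ × ℕ) = 3 := by
      rw [sz_pair, sz_nat]
      rfl
    rw [this]
    simp only [Polynomial.eval_add, Polynomial.eval_mul, Polynomial.eval_C]
    omega
  by_cases hne : d = []
  · constructor
    · intro _
      exact ⟨(0, 0), h00, by simp [verB, hne]⟩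
    · rintro _ ⟨h, -⟩
      exact h hne
  by_cases hpos : ∀ x ∈ d, 0 < x
  swap
  · constructor
    · intro _
      refine ⟨(0, 0), h00, ?_⟩
      push Not at hpos
      obtain ⟨x, hx, hx0⟩ := hpos
      have : d.any (fun x => decide (x = 0)) = true := by
        rw [List.any_eq_true]
        exact ⟨x, hx, by simpa using Nat.le_zero.1 hx0⟩
      simp [verB, this]
    · rintro _ ⟨-, h, -⟩
      exact hpos h
  by_cases hq : 0 < q
  swap
  · constructor
    · intro _
      refine ⟨(0, 0), h00, ?_⟩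
      have : q = 0 := by omega
      simp [verB, this]
    · rintro _ ⟨-, -, h, -⟩
      exact hq h
  have hany : d.any (fun x => decide (x = 0)) = false := by
    rw [List.any_eq_false]
    intro x hx
    have := hpos x hx
    simp
    omega
  have hver : ∀ x y : ℕ, verB ((d, p, q), x, y) = true ↔ x ≤ y ∧ y ≤ d.sum ∧ y - x <
      (d.map (fun v => loV d.sum p q y v - upV d.sum p q x v)).sum := by
    intro x y
    unfold verB
    have h1 : ¬ d.length = 0 := by
      rw [List.length_eq_zero_iff]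
      exact hne
    have h2 : ¬ q = 0 := by omega
    simp only [hany, h1, h2, decide_false, Bool.false_or, Bool.and_eq_true, decide_eq_true_eq]
  rw [bjit_iff_crit d p q hne hpos hq]
  constructor
  · intro h
    push Not at h
    obtain ⟨x, y, hxy, hy, hlt⟩ := h
    refine ⟨(x, y), ?_, (hver x y).2 ⟨hxy, hy, hlt⟩⟩
    have h1 := sz_nat_mono_le hy
    have h2 := sz_nat_mono_le (hxy.trans hy)
    rw [sz_pair]
    simp only [Polynomial.eval_add, Polynomial.eval_mul, Polynomial.eval_C]
    omega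
  · rintro ⟨⟨x, y⟩, -, h⟩ hcon
    obtain ⟨h1, h2, h3⟩ := (hver x y).1 h
    have := hcon x y h1 h2
    omega

/-- `BJIT` is `co-NP`-hard. -/
theorem bjit_hard : CoNPHardP BJIT := HardI.toCoNPHardP hard_bjit

/-- `BJIT` is in `NP` if and only if `NP = co-NP`. -/
theorem bjit_inNP_iff : InNPP BJIT ↔ ∀ L : Set (List Bool), InNP L ↔ InCoNP L := by
  constructor
  · intro h
    have key : ∀ L : Set (List Bool), InCoNP L → InNP L := fun L hL =>
      InNP.of_reduces (bjit_hard L hL) h
    intro L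
    refine ⟨fun hL => ?_, key L⟩
    have h1 : InCoNP Lᶜ := by
      unfold InCoNP
      rwa [compl_compl]
    exact key Lᶜ h1
  · intro h
    exact (h _).2 bjit_inCoNP

end Pool.Agent.NPC.H577R2
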