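import Pool.Agent.H577R2.BJ.Hall

/-!
# Instances for which the single-time conditions suffice
-/

namespace Pool.Agent.H577R2

open Finset

variable {ι : Type} [Fintype ι] [DecidableEq ι]

theorem ceil_le_occ {o : ℕ} {v B : ℚ} (h : |(o : ℚ) - v| ≤ B) : ⌈v - B⌉ ≤ (o : ℤ) := by
  rw [abs_le] at h
  rw [Int.ceil_le]
  push_cast
  linarith [h.1]

/-- The single-time conditions are necessary. -/
theorem single_of_word {d : ι → ℕ} {D : ℕ} {B : ℚ} {S : Fin D → ι}
    (hS : ∀ i, ∀ k ≤ D, |(occ S i k : ℚ) - k * ((d i : ℚ) / D)| ≤ B) (y : ℕ) (hy : y ≤ D) :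
    ∑ i, ⌈(y : ℚ) * ((d i : ℚ) / D) - B⌉ ≤ (y : ℤ) := by
  calc ∑ i, ⌈(y : ℚ) * ((d i : ℚ) / D) - B⌉ ≤ ∑ i, (occ S i y : ℤ) :=
        sum_le_sum fun i _ => ceil_le_occ (hS i y hy)
    _ = (y : ℤ) := by
        rw [← Nat.cast_sum, sum_occ S hy]

theorem toNat_sub_toNat {a b : ℤ} (hb : 0 ≤ b) : ((a.toNat - b.toNat : ℕ) : ℤ) = max (a - b) 0 := by
  omega

/-- The single-time conditions suffice if all but few rates are minimal. -/
theorem word_of_single {d : ι → ℕ} {D : ℕ} (hD : ∑ i, d i = D) (hpos : 0 < D) {B : ℚ}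
    (hB0 : 0 ≤ B) (hB1 : B < 1) (d0 : ℕ) (hd0 : ∀ i, d0 ≤ d i)
    (hM : 2 * (1 - B) * ((univ.filter (fun i => d i ≠ d0)).card : ℚ) ≤ 1)
    (hs : ∀ y ≤ D, ∑ i, ⌈(y : ℚ) * ((d i : ℚ) / D) - B⌉ ≤ (y : ℤ)) :
    ∃ S : Fin D → ι, ∀ i, ∀ k ≤ D, |(occ S i k : ℚ) - k * ((d i : ℚ) / D)| ≤ B := by
  classical
  have hDq : (0 : ℚ) < D := by exact_mod_cast hpos
  have hr0 : ∀ i, (0 : ℚ) ≤ (d i : ℚ) / D := fun i => by positivity
  have hsumr : ∑ i, (d i : ℚ) / D = 1 := by
    rw [← sum_div, ← Nat.cast_sum, hD, div_self hDq.ne']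
  have hb : Bds d (fun i k => ⌈(k : ℚ) * ((d i : ℚ) / D) - B⌉.toNat)
      (fun i k => ⌊(k : ℚ) * ((d i : ℚ) / D) + B⌋.toNat) D := by
    refine ⟨hD, fun i a b hab => ?_, fun i a b hab => ?_, fun i => ?_, fun i => ?_⟩
    · refine Int.toNat_le_toNat (Int.ceil_le_ceil ?_)
      have : (a : ℚ) ≤ b := by exact_mod_cast hab
      have := mul_le_mul_of_nonneg_right this (hr0 i)
      linarith
    · refine Int.toNat_le_toNat (Int.floor_le_floor ?_)
      have : (a : ℚ) ≤ b := by exact_mod_cast hab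
      have := mul_le_mul_of_nonneg_right this (hr0 i)
      linarith
    · have : ⌊((0 : ℕ) : ℚ) * ((d i : ℚ) / D) + B⌋ = 0 := by
        rw [Int.floor_eq_iff]
        push_cast
        constructor <;> linarith
      simp only [this, Int.toNat_zero]
    · have : ⌈(D : ℚ) * ((d i : ℚ) / D) - B⌉ = d i := by
        rw [mul_div_cancel₀ _ hDq.ne', Int.ceil_eq_iff]
        push_cast
        constructor <;> linarith
      simp only [this, Int.toNat_natCast]
  have hc : IntCond (fun i k => ⌈(k : ℚ) * ((d i : ℚ) / D) - B⌉.toNat)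
      (fun i k => ⌊(k : ℚ) * ((d i : ℚ) / D) + B⌋.toNat) D := by
    intro x y hxy hy
    have hfl : ∀ i, 0 ≤ ⌊(x : ℚ) * ((d i : ℚ) / D) + B⌋ := fun i =>
      Int.floor_nonneg.2 (by have := hr0 i; positivity)
    have hcast : ((∑ i, (⌈(y : ℚ) * ((d i : ℚ) / D) - B⌉.toNat -
        ⌊(x : ℚ) * ((d i : ℚ) / D) + B⌋.toNat) : ℕ) : ℤ) =
        ∑ i, max (⌈(y : ℚ) * ((d i : ℚ) / D) - B⌉ - ⌊(x : ℚ) * ((d i : ℚ) / D) + B⌋) 0 := by
      rw [Nat.cast_sum]
      exact sum_congr rfl fun i _ => toNat_sub_toNat (hfl i)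
    have hgoal : ∑ i, max (⌈(y : ℚ) * ((d i : ℚ) / D) - B⌉ -
        ⌊(x : ℚ) * ((d i : ℚ) / D) + B⌋) 0 ≤ (y : ℤ) - x := by
      set ℓ : ℚ := (y : ℚ) - x with hℓ
      have hℓ0 : 0 ≤ ℓ := by
        rw [hℓ, sub_nonneg]
        exact_mod_cast hxy
      have hge : ∀ i, ℓ * ((d i : ℚ) / D) - 2 * B ≤
          ((⌈(y : ℚ) * ((d i : ℚ) / D) - B⌉ - ⌊(x : ℚ) * ((d i : ℚ) / D) + B⌋ : ℤ) : ℚ) := by
        intro i
        have h1 := Int.le_ceil ((y : ℚ) * ((d i : ℚ) / D) - B)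
        have h2 := Int.floor_le ((x : ℚ) * ((d i : ℚ) / D) + B)
        push_cast
        rw [hℓ]
        nlinarith
      have hlt : ∀ i, ((⌈(y : ℚ) * ((d i : ℚ) / D) - B⌉ -
          ⌊(x : ℚ) * ((d i : ℚ) / D) + B⌋ : ℤ) : ℚ) < ℓ * ((d i : ℚ) / D) + 2 * (1 - B) := by
        intro i
        have h1 := Int.ceil_lt_add_one ((y : ℚ) * ((d i : ℚ) / D) - B)
        have h2 := Int.lt_floor_add_one ((x : ℚ) * ((d i : ℚ) / D) + B)
        push_cast
        rw [hℓ]
        nlinarith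
      have hrmin : ∀ i, (d0 : ℚ) / D ≤ (d i : ℚ) / D := by
        intro i
        have : (d0 : ℚ) ≤ d i := by exact_mod_cast hd0 i
        exact div_le_div_of_nonneg_right this hDq.le
      rcases lt_or_ge (2 * B - 1) (ℓ * ((d0 : ℚ) / D)) with hcase | hcase
      · -- all summands are nonnegative
        have hnn : ∀ i, 0 ≤ ⌈(y : ℚ) * ((d i : ℚ) / D) - B⌉ -
            ⌊(x : ℚ) * ((d i : ℚ) / D) + B⌋ := by
          intro i
          have h1 := hge i
          have h2 := mul_le_mul_of_nonneg_left (hrmin i) hℓ0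
          have h3 : ((-1 : ℤ) : ℚ) < ((⌈(y : ℚ) * ((d i : ℚ) / D) - B⌉ -
              ⌊(x : ℚ) * ((d i : ℚ) / D) + B⌋ : ℤ) : ℚ) := by
            push_cast at h1 ⊢
            linarith
          have h4 := Int.cast_lt.1 h3
          omega
        rw [sum_congr rfl fun i _ => max_eq_left (hnn i), sum_sub_distrib]
        have h1 := hs y hy
        have h2 := hs (D - x) (Nat.sub_le _ _)
        have h3 : ∀ i, ⌊(x : ℚ) * ((d i : ℚ) / D) + B⌋ =
            (d i : ℤ) - ⌈((D - x : ℕ) : ℚ) * ((d i : ℚ) / D) - B⌉ := by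
          intro i
          have hxD : x ≤ D := hxy.trans hy
          have h4 : ((D - x : ℕ) : ℚ) * ((d i : ℚ) / D) - B =
              -((x : ℚ) * ((d i : ℚ) / D) + B - (d i : ℤ)) := by
            rw [Nat.cast_sub hxD, sub_mul, mul_div_cancel₀ _ hDq.ne']
            push_cast
            ring
          rw [h4, Int.ceil_neg, Int.floor_sub_intCast]
          ring
        have h5 : ∑ i, ⌊(x : ℚ) * ((d i : ℚ) / D) + B⌋ =
            (D : ℤ) - ∑ i, ⌈((D - x : ℕ) : ℚ) * ((d i : ℚ) / D) - B⌉ := by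
          rw [sum_congr rfl fun i _ => h3 i, sum_sub_distrib, ← Nat.cast_sum, hD]
        rw [h5]
        have hxD : x ≤ D := hxy.trans hy
        push_cast [Nat.cast_sub hxD] at h2 ⊢
        linarith
      · -- the minimal items do not contribute
        have hzero : ∀ i, d i = d0 → max (⌈(y : ℚ) * ((d i : ℚ) / D) - B⌉ -
            ⌊(x : ℚ) * ((d i : ℚ) / D) + B⌋) 0 = 0 := by
          intro i hi
          rw [max_eq_right_iff]
          have h1 := hlt i
          rw [hi] at h1 ⊢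
          have h3 : ((⌈(y : ℚ) * ((d0 : ℚ) / D) - B⌉ -
              ⌊(x : ℚ) * ((d0 : ℚ) / D) + B⌋ : ℤ) : ℚ) < ((1 : ℤ) : ℚ) := by
            push_cast at h1 ⊢
            linarith
          have h4 := Int.cast_lt.1 h3
          omega
        rw [← sum_filter_add_sum_filter_not univ (fun i => d i ≠ d0)]
        have hz : ∑ i ∈ univ.filter (fun i => ¬ (d i ≠ d0)),
            max (⌈(y : ℚ) * ((d i : ℚ) / D) - B⌉ - ⌊(x : ℚ) * ((d i : ℚ) / D) + B⌋) 0 = 0 := by
          refine sum_eq_zero fun i hi => hzero i ?_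
          rw [mem_filter] at hi
          exact not_not.1 hi.2
        rw [hz, add_zero]
        rcases (univ.filter (fun i => d i ≠ d0)).eq_empty_or_nonempty with hemp | hne
        · rw [hemp, sum_empty]
          have : (x : ℤ) ≤ y := by exact_mod_cast hxy
          linarith
        · have h1 : ((∑ i ∈ univ.filter (fun i => d i ≠ d0),
              max (⌈(y : ℚ) * ((d i : ℚ) / D) - B⌉ - ⌊(x : ℚ) * ((d i : ℚ) / D) + B⌋) 0 : ℤ) : ℚ) <
              ∑ i ∈ univ.filter (fun i => d i ≠ d0),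
                (ℓ * ((d i : ℚ) / D) + 2 * (1 - B)) := by
            rw [Int.cast_sum]
            refine sum_lt_sum_of_nonempty hne fun i _ => ?_
            rw [Int.cast_max]
            refine max_lt (hlt i) ?_
            have := mul_nonneg hℓ0 (hr0 i)
            push_cast
            linarith
          have h2 : ∑ i ∈ univ.filter (fun i => d i ≠ d0),
              (ℓ * ((d i : ℚ) / D) + 2 * (1 - B)) ≤ ℓ + 1 := by
            rw [sum_add_distrib, ← mul_sum, sum_const, nsmul_eq_mul]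
            have h3 : ∑ i ∈ univ.filter (fun i => d i ≠ d0), (d i : ℚ) / D ≤ 1 := by
              rw [← hsumr]
              exact sum_le_sum_of_subset_of_nonneg (filter_subset _ _) fun i _ _ => hr0 i
            have h4 := mul_le_mul_of_nonneg_left h3 hℓ0
            nlinarith
          have h3 := h1.trans_le h2
          have h4 : ((∑ i ∈ univ.filter (fun i => d i ≠ d0),
              max (⌈(y : ℚ) * ((d i : ℚ) / D) - B⌉ - ⌊(x : ℚ) * ((d i : ℚ) / D) + B⌋) 0 : ℤ) : ℚ) <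
              (((y : ℤ) - x + 1 : ℤ) : ℚ) := by
            refine h3.trans_eq ?_
            rw [hℓ]
            push_cast
            ring
          have h5 := Int.cast_lt.1 h4
          omega
    have h6 : ((∑ i, (⌈(y : ℚ) * ((d i : ℚ) / D) - B⌉.toNat -
        ⌊(x : ℚ) * ((d i : ℚ) / D) + B⌋.toNat) : ℕ) : ℤ) ≤ ((y - x : ℕ) : ℤ) := by
      rw [hcast, Nat.cast_sub hxy]
      exact hgoal
    exact_mod_cast h6
  obtain ⟨S, hS⟩ := exists_word hb hc
  refine ⟨S, fun i k hk => ?_⟩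
  obtain ⟨h1, h2⟩ := hS i k hk
  rw [abs_le]
  constructor
  · have h3 := Int.le_ceil ((k : ℚ) * ((d i : ℚ) / D) - B)
    have h4 : (⌈(k : ℚ) * ((d i : ℚ) / D) - B⌉ : ℤ) ≤ (occ S i k : ℤ) := by
      have := Int.self_le_toNat ⌈(k : ℚ) * ((d i : ℚ) / D) - B⌉
      omega
    have h5 : ((⌈(k : ℚ) * ((d i : ℚ) / D) - B⌉ : ℤ) : ℚ) ≤ (occ S i k : ℚ) := by
      exact_mod_cast h4
    linarith
  · have h3 := Int.floor_le ((k : ℚ) * ((d i : ℚ) / D) + B)
    have h0 : 0 ≤ ⌊(k : ℚ) * ((d i : ℚ) / D) + B⌋ :=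
      Int.floor_nonneg.2 (by have := hr0 i; positivity)
    have h4 : (occ S i k : ℤ) ≤ ⌊(k : ℚ) * ((d i : ℚ) / D) + B⌋ := by omega
    have h5 : (occ S i k : ℚ) ≤ ((⌊(k : ℚ) * ((d i : ℚ) / D) + B⌋ : ℤ) : ℚ) := by
      exact_mod_cast h4
    linarith

end Pool.Agent.H577R2
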