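import Pool.Agent.H577R2.BJ.SatC
import Pool.Agent.H577R2.Reach

/-!
# The reduction to `BJIT` is polynomial-time computable
-/

namespace Pool.Agent.NPC.H577R2

open Finset Pool.Agent.H577R2 Pool.Agent.H577R2.BJ

section Gen

variable {α β : Type} [TEnc α] [TEnc β]

theorem poly_prod {l : α → List ℕ} (hl : Poly l) : Poly (fun a => (l a).prod) := by
  obtain ⟨r, hr⟩ := hl.sz_le
  refine (Poly.foldr (s := fun _ => 1) (F := fun _ x s => x * s) hl (Poly.const 1)
    (Poly.mul (Poly.fst (Poly.snd Poly.id)) (Poly.snd (Poly.snd Poly.id)))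
    (Polynomial.C 4 * r + Polynomial.C 1) ?_).congr fun a => ?_
  · intro a k hk
    have key : ∀ l : List ℕ, (l.foldr (fun x s => x * s) 1).size ≤ sz l := by
      intro l
      induction l with
      | nil => simp
      | cons x l ih =>
        rw [List.foldr_cons]
        set s := l.foldr (fun x s => x * s) 1
        have h1 := Nat.lt_size_self x
        have h2 := Nat.lt_size_self s
        have h3 : x * s < 2 ^ (x.size + s.size) := by
          rw [pow_add]
          exact Nat.mul_lt_mul'' h1 h2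
        have h4 := Nat.size_le.2 h3
        have h5 := size_le_sz x
        simp
        omega
    have h1 := sz_nat_le (((l a).drop k).foldr (fun x s => x * s) 1)
    have h2 := key ((l a).drop k)
    have h3 := Poly.sz_drop_le (l a) k
    have h4 := hr a
    simp only [Polynomial.eval_add, Polynomial.eval_mul, Polynomial.eval_C]
    omega
  · induction l a with
    | nil => rfl
    | cons x l ih => rw [List.foldr_cons, ih, List.prod_cons]

theorem prod_range_list (f : ℕ → ℕ) (n : ℕ) :
    ((List.range n).map f).prod = ∏ i ∈ Finset.range n, f i := by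
  induction n with
  | zero => simp
  | succ n ih => rw [List.range_succ, List.map_append, List.prod_append, ih, prod_range_succ]; simp

theorem poly_factorial {n : α → ℕ} (hn : UPoly n) : Poly (fun a => (n a).factorial) :=
  (poly_prod (Poly.map (F := fun _ i => i + 1) (poly_range hn)
    (Poly.add (Poly.snd Poly.id) (Poly.const 1)))).congr fun a => by
      rw [prod_range_list, Finset.prod_range_add_one_eq_factorial]

theorem poly_count {l : α → List ℕ} {x : α → ℕ} (hl : Poly l) (hx : Poly x) :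
    Poly (fun a => (l a).count (x a)) :=
  (Poly.length (Poly.filter (p := fun a y => decide (y = x a)) hl
    (Poly.decide_eq (Poly.snd Poly.id) (hx.comp (Poly.fst Poly.id))))).congr fun a => by
      rw [List.count, List.countP_eq_length_filter]
      rfl

end Gen

theorem upoly_kB : UPoly kB :=
  UPoly.add (UPoly.mul (UPoly.const 3) upoly_len0) (UPoly.const 1)

theorem upoly_NB : UPoly NB := UPoly.mul (UPoly.const 2) upoly_kB

theorem upoly_sq : UPoly (fun φ : CNF3 => φ.length ^ 2) :=
  (UPoly.mul upoly_len0 upoly_len0).congr fun φ => by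
    change List.replicate (φ.length * φ.length) () = List.replicate (φ.length ^ 2) ()
    rw [sq]

theorem upoly_MB : UPoly MB :=
  UPoly.add (UPoly.add (UPoly.mul (UPoly.const 27) upoly_sq)
    (UPoly.mul (UPoly.const 21) upoly_len0)) (UPoly.const 6)

theorem upoly_mB : UPoly mB := UPoly.mul (UPoly.const 4) upoly_MB

theorem poly_lits : Poly lits :=
  Poly.flatMap (F := fun (_ : CNF3) (c : Lit ℕ × Lit ℕ × Lit ℕ) =>
      [lit c.1, lit c.2.1, lit c.2.2]) Poly.id
    (Poly.cons (poly_lit (Poly.fst (Poly.snd Poly.id)))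
      (Poly.cons (poly_lit (Poly.fst (Poly.snd (Poly.snd Poly.id))))
        (Poly.cons (poly_lit (Poly.snd (Poly.snd (Poly.snd Poly.id)))) (Poly.const []))))

theorem poly_itB : Poly itB := by
  have h1 : Poly (fun φ : CNF3 => List.replicate (3 * MB φ) ((2, [], 0) : Item)) :=
    poly_replicate (UPoly.mul (UPoly.const 3) upoly_MB) (Poly.const _)
  have h2 : Poly (fun φ : CNF3 => List.replicate (9 * φ.length ^ 2 + 8 * φ.length + 2)
      ((mB φ + 2, [], 1) : Item)) :=
    poly_replicate (UPoly.add (UPoly.add (UPoly.mul (UPoly.const 9) upoly_sq)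
      (UPoly.mul (UPoly.const 8) upoly_len0)) (UPoly.const 2))
      (Poly.pair (Poly.add upoly_mB.toPoly (Poly.const 2)) (Poly.const ([], 1)))
  have h3 : Poly (fun φ : CNF3 => (List.range (NB φ)).flatMap
      (fun ℓ => List.replicate (3 * φ.length + 1 - (lits φ).count ℓ) ((1, [ℓ], 0) : Item))) := by
    refine Poly.flatMap (F := fun (φ : CNF3) ℓ =>
      List.replicate (3 * φ.length + 1 - (lits φ).count ℓ) ((1, [ℓ], 0) : Item))
      (poly_range upoly_NB) (poly_replicate ?_ ?_)
    · have hb : UPoly (fun p : CNF3 × ℕ => 3 * p.1.length + 1) :=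
        (UPoly.add (UPoly.mul (UPoly.const 3) upoly_len0) (UPoly.const 1)).comp (Poly.fst Poly.id)
      refine UPoly.of_le (n := fun p : CNF3 × ℕ => 3 * p.1.length + 1) ?_ hb
        (fun p => Nat.sub_le _ _)
      exact Poly.sub hb.toPoly (poly_count (poly_lits.comp (Poly.fst Poly.id)) (Poly.snd Poly.id))
    · exact Poly.pair (Poly.const 1) (Poly.pair (Poly.cons (Poly.snd Poly.id) (Poly.const []))
        (Poly.const 0))
  have h4 : Poly (fun φ : CNF3 => (List.range (kB φ)).map
      (fun v => ((0, [2 * v, 2 * v + 1], 0) : Item))) := by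
    refine Poly.map (F := fun (_ : CNF3) v => ((0, [2 * v, 2 * v + 1], 0) : Item))
      (poly_range upoly_kB) ?_
    have hv : Poly (fun p : CNF3 × ℕ => 2 * p.2) := Poly.mul (Poly.const 2) (Poly.snd Poly.id)
    exact Poly.pair (Poly.const 0) (Poly.pair (Poly.cons hv (Poly.cons
      (Poly.add hv (Poly.const 1)) (Poly.const []))) (Poly.const 0))
  have h5 : Poly (fun φ : CNF3 => φ.map (fun c =>
      ((mB φ - 1, [lit c.1, lit c.2.1, lit c.2.2], 1) : Item))) := by
    refine Poly.map (F := fun (φ : CNF3) (c : Lit ℕ × Lit ℕ × Lit ℕ) =>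
      ((mB φ - 1, [lit c.1, lit c.2.1, lit c.2.2], 1) : Item)) Poly.id ?_
    refine Poly.pair (Poly.sub (upoly_mB.toPoly.comp (Poly.fst Poly.id)) (Poly.const 1))
      (Poly.pair ?_ (Poly.const 1))
    exact (Poly.cons (poly_lit (Poly.fst (Poly.snd Poly.id)))
      (Poly.cons (poly_lit (Poly.fst (Poly.snd (Poly.snd Poly.id))))
        (Poly.cons (poly_lit (Poly.snd (Poly.snd (Poly.snd Poly.id)))) (Poly.const []))))
  exact Poly.append h1 (Poly.append h2 (Poly.append h3 (Poly.append h4 h5)))

theorem poly_qM : Poly (fun p : CNF3 × ℕ => qM p.1 p.2) := by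
  have hm : Poly (fun p : CNF3 × ℕ => mB p.1) := upoly_mB.toPoly.comp (Poly.fst Poly.id)
  have hg : Poly (fun p : CNF3 × ℕ => gB p.1) :=
    (poly_factorial upoly_NB).comp (Poly.fst Poly.id)
  have hz : Poly (fun p : CNF3 × ℕ => zB p.1) :=
    (Poly.mul (Poly.const 24) (Poly.mul hm (Poly.mul hm hm))).congr fun p => by
      unfold zB
      ring
  exact Poly.add (Poly.const 1) (Poly.mul hm (Poly.mul hg (Poly.add hz (Poly.snd Poly.id))))

theorem poly_DD : Poly (fun φ : CNF3 => DD (qM φ) (NB φ)) :=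
  (poly_prod (Poly.map (F := fun φ i => qM φ i)
    (poly_range (UPoly.add upoly_NB (UPoly.const 1))) poly_qM)).congr fun φ => by
      rw [prod_range_list]
      rfl

theorem poly_PP : Poly (fun p : CNF3 × ℕ => PP (qM p.1) (NB p.1) p.2) := by
  have h1 : Poly (fun p : CNF3 × ℕ => DD (qM p.1) (NB p.1)) :=
    Poly.comp (g := fun φ : CNF3 => DD (qM φ) (NB φ)) (f := fun p : CNF3 × ℕ => p.1) poly_DD
      (Poly.fst Poly.id)
  exact Poly.div h1 poly_qM

section Irr

attribute [local irreducible] PP DD NB mB qM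

theorem poly_PPN : Poly (fun φ : CNF3 => PP (qM φ) (NB φ) (NB φ)) :=
  Poly.comp (g := fun p : CNF3 × ℕ => PP (qM p.1) (NB p.1) p.2)
    (f := fun φ : CNF3 => (φ, NB φ)) poly_PP (Poly.pair Poly.id upoly_NB.toPoly)

theorem poly_val : Poly (fun p : CNF3 × Item => val (qM p.1) (NB p.1) p.2) := by
  have hN : Poly (fun p : CNF3 × Item => PP (qM p.1) (NB p.1) (NB p.1)) :=
    Poly.comp (g := fun φ : CNF3 => PP (qM φ) (NB φ) (NB φ)) (f := fun p : CNF3 × Item => p.1)
      poly_PPN (Poly.fst Poly.id)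
  have h2 : Poly (fun p : (CNF3 × Item) × ℕ => PP (qM p.1.1) (NB p.1.1) p.2) :=
    Poly.comp (g := fun p : CNF3 × ℕ => PP (qM p.1) (NB p.1) p.2)
      (f := fun p : (CNF3 × Item) × ℕ => (p.1.1, p.2)) poly_PP
      (Poly.pair (Poly.fst (Poly.fst Poly.id)) (Poly.snd Poly.id))
  have h3 : Poly (fun p : CNF3 × Item => p.2.1) := Poly.fst (Poly.snd Poly.id)
  have h4 : Poly (fun p : CNF3 × Item => p.2.2.1) := Poly.fst (Poly.snd (Poly.snd Poly.id))
  have h5 : Poly (fun p : CNF3 × Item => p.2.2.1.map (fun ℓ => PP (qM p.1) (NB p.1) ℓ)) :=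
    Poly.map (F := fun (p : CNF3 × Item) ℓ => PP (qM p.1) (NB p.1) ℓ) h4 h2
  exact Poly.sub (Poly.add (Poly.mul h3 hN) (Poly.sum h5)) hN

theorem poly_vals : Poly (fun φ : CNF3 => (itB φ).map (val (qM φ) (NB φ))) :=
  Poly.map (F := fun (φ : CNF3) it => val (qM φ) (NB φ) it) poly_itB poly_val

theorem poly_dL : Poly (fun φ : CNF3 => dL (qM φ) (NB φ) (itB φ)) :=
  Poly.append poly_vals (Poly.cons (Poly.sub poly_DD (Poly.sum poly_vals)) (Poly.const []))

theorem poly_qN : Poly (fun φ : CNF3 => qM φ (NB φ)) :=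
  Poly.comp (g := fun p : CNF3 × ℕ => qM p.1 p.2) (f := fun φ : CNF3 => (φ, NB φ)) poly_qM
    (Poly.pair Poly.id upoly_NB.toPoly)

theorem poly_instB : Poly instB := by
  have hm : Poly mB := upoly_mB.toPoly
  refine Poly.pair poly_dL (Poly.pair ?_ ?_)
  · exact Poly.sub (Poly.mul (Poly.mul (Poly.const 2) (Poly.sub hm (Poly.const 1))) poly_qN)
      (Poly.sub (Poly.mul (Poly.const 3) hm) (Poly.const 2))
  · exact Poly.mul (Poly.mul (Poly.const 2) hm) poly_qN

end Irr

theorem hard_bjit : HardI (fun I => ¬ BJIT I) :=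
  (HardPr.trans (Pr' := fun _ => True) hardPr_small poly_instB (fun _ _ => trivial)
    instB_correct).toHardI

/-- `BJIT` is `co-NP`-hard. -/
theorem coNPHard_bjit : CoNPHard (lang BJIT) := coNPHard_of hard_bjit

end Pool.Agent.NPC.H577R2
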