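import Pool.Agent.H577R2.BJ.Inst
import Pool.Agent.H577R2.FromSat

/-!
# The linear system of a formula
-/

namespace Pool.Agent.H577R2.BJ

open Finset Pool.Agent.NPC

/-- The number of variables. -/
def kB (φ : CNF3) : ℕ := 3 * φ.length + 1

/-- The index of the reference modulus. -/
def NB (φ : CNF3) : ℕ := 2 * kB φ

/-- The number of items which are not heavy (including the last one). -/
def MB (φ : CNF3) : ℕ := 27 * φ.length ^ 2 + 21 * φ.length + 6

/-- The number of all items (including the last one). -/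
def mB (φ : CNF3) : ℕ := 4 * MB φ

/-- The list of all literals. -/
def lits (φ : CNF3) : List ℕ := φ.flatMap (fun c => [lit c.1, lit c.2.1, lit c.2.2])

/-- The items. -/
def itB (φ : CNF3) : List Item :=
  List.replicate (3 * MB φ) (2, [], 0) ++
    (List.replicate (9 * φ.length ^ 2 + 8 * φ.length + 2) (mB φ + 2, [], 1) ++
      ((List.range (NB φ)).flatMap
          (fun ℓ => List.replicate (3 * φ.length + 1 - (lits φ).count ℓ) (1, [ℓ], 0)) ++
        ((List.range (kB φ)).map (fun v => (0, [2 * v, 2 * v + 1], 0)) ++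
          φ.map (fun c => (mB φ - 1, [lit c.1, lit c.2.1, lit c.2.2], 1)))))

theorem sum_range_list (f : ℕ → ℤ) (n : ℕ) :
    ((List.range n).map f).sum = ∑ i ∈ range n, f i := by
  induction n with
  | zero => simp
  | succ n ih => rw [List.range_succ, List.map_append, List.sum_append, ih, sum_range_succ]; simp

theorem sum_range_list_nat (f : ℕ → ℕ) (n : ℕ) :
    ((List.range n).map f).sum = ∑ i ∈ range n, f i := by
  induction n with
  | zero => simp
  | succ n ih => rw [List.range_succ, List.map_append, List.sum_append, ih, sum_range_succ]; simp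

theorem sum_map_flatMap {β γ : Type} (l : List β) (f : β → List γ) (g : γ → ℤ) :
    ((l.flatMap f).map g).sum = (l.map (fun x => ((f x).map g).sum)).sum := by
  induction l with
  | nil => simp
  | cons a l ih =>
    rw [List.flatMap_cons, List.map_append, List.sum_append, ih, List.map_cons, List.sum_cons]

theorem sum_map_add_const {β : Type} (l : List β) (f : β → ℤ) (C : ℤ) :
    (l.map (fun x => f x + C)).sum = (l.map f).sum + l.length * C := by
  induction l with
  | nil => simp
  | cons a l ih =>
    rw [List.map_cons, List.sum_cons, ih, List.map_cons, List.sum_cons, List.length_cons]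
    push_cast
    ring

theorem sum_count (l : List ℕ) (u : ℕ → ℤ) (n : ℕ) (h : ∀ x ∈ l, x < n) :
    (l.map u).sum = ∑ ℓ ∈ range n, (l.count ℓ : ℤ) * u ℓ := by
  induction l with
  | nil => simp
  | cons a l ih =>
    rw [List.map_cons, List.sum_cons, ih (fun x hx => h x (List.mem_cons_of_mem _ hx))]
    have h1 : ∀ ℓ, (((a :: l).count ℓ : ℕ) : ℤ) * u ℓ =
        (l.count ℓ : ℤ) * u ℓ + (if a = ℓ then u ℓ else 0) := by
      intro ℓ
      rw [List.count_cons]
      by_cases h : a = ℓ
      · simp [h]
        ring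
      · simp [h]
    rw [sum_congr rfl fun ℓ _ => h1 ℓ, sum_add_distrib, Finset.sum_ite_eq,
      if_pos (mem_range.2 (h a List.mem_cons_self))]
    ring

theorem lits_length (φ : CNF3) : (lits φ).length = 3 * φ.length := by
  unfold lits
  rw [List.length_flatMap]
  simp
  ring

theorem lit_lt {φ : CNF3} {l : Lit ℕ} (h : l.2 < 3 * φ.length) : lit l < NB φ := by
  unfold lit NB kB
  cases l.1 <;> simp <;> omega

theorem lits_lt {φ : CNF3} (hφ : Small φ) : ∀ x ∈ lits φ, x < NB φ := by
  intro x hx
  unfold lits at hx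
  rw [List.mem_flatMap] at hx
  obtain ⟨c, hc, hx⟩ := hx
  obtain ⟨h1, h2, h3⟩ := hφ c hc
  simp only [List.mem_cons, List.not_mem_nil, or_false] at hx
  rcases hx with rfl | rfl | rfl
  · exact lit_lt h1
  · exact lit_lt h2
  · exact lit_lt h3

theorem count_le (φ : CNF3) (ℓ : ℕ) : (lits φ).count ℓ ≤ 3 * φ.length := by
  rw [← lits_length]
  exact List.count_le_length

theorem MB_eq (φ : CNF3) : (MB φ : ℤ) = 27 * (φ.length : ℤ) ^ 2 + 21 * φ.length + 6 := by
  unfold MB
  push_cast
  ring

/-- The total of the linear forms. -/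
theorem sum_hf (φ : CNF3) (hφ : Small φ) (u : ℕ → ℤ) :
    ((itB φ).map (hf (mB φ) (NB φ) u)).sum =
      3 * MB φ * u (NB φ) + (9 * (φ.length : ℤ) ^ 2 + 8 * φ.length + 2) *
        ((mB φ + 1) * u (NB φ) - (mB φ - 1)) +
      (3 * φ.length + 2) * (∑ ℓ ∈ range (NB φ), u ℓ) - kB φ * u (NB φ) +
      φ.length * ((mB φ - 2) * u (NB φ) - (mB φ - 1)) := by
  have hm1 : 1 ≤ mB φ := by
    unfold mB MB
    omega
  unfold itB
  rw [List.map_append, List.sum_append, List.map_append, List.sum_append, List.map_append,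
    List.sum_append, List.map_append, List.sum_append, List.map_replicate, List.sum_replicate,
    List.map_replicate, List.sum_replicate, sum_map_flatMap, List.map_map, List.map_map]
  have e1 : hf (mB φ) (NB φ) u (2, [], 0) = u (NB φ) := hf_unitN u
  have e2 : hf (mB φ) (NB φ) u (mB φ + 2, [], 1) =
      ((mB φ : ℤ) + 1) * u (NB φ) - (mB φ - 1) := by
    simp only [hf, List.map_nil, List.sum_nil]
    push_cast
    ring
  have e3 : ∀ ℓ, ((List.replicate (3 * φ.length + 1 - (lits φ).count ℓ) ((1, [ℓ], 0) : Item)).map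
      (hf (mB φ) (NB φ) u)).sum = (3 * φ.length + 1) * u ℓ - ((lits φ).count ℓ : ℤ) * u ℓ := by
    intro ℓ
    rw [List.map_replicate, List.sum_replicate, hf_unit, nsmul_eq_mul,
      Nat.cast_sub (by have := count_le φ ℓ; omega)]
    push_cast
    ring
  have e4 : ∀ v, (hf (mB φ) (NB φ) u ∘ fun v => ((0, [2 * v, 2 * v + 1], 0) : Item)) v =
      u (2 * v) + u (2 * v + 1) - u (NB φ) := by
    intro v
    simp only [hf, Function.comp_apply, List.map_cons, List.map_nil, List.sum_cons, List.sum_nil]
    push_cast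
    ring
  have e5 : ∀ c : Lit ℕ × Lit ℕ × Lit ℕ, (hf (mB φ) (NB φ) u ∘
      fun c : Lit ℕ × Lit ℕ × Lit ℕ =>
        ((mB φ - 1, [lit c.1, lit c.2.1, lit c.2.2], 1) : Item)) c =
      ([lit c.1, lit c.2.1, lit c.2.2].map u).sum +
        (((mB φ : ℤ) - 2) * u (NB φ) - (mB φ - 1)) := by
    intro c
    simp only [hf, Function.comp_apply]
    rw [Nat.cast_sub hm1]
    push_cast
    ring
  rw [e1, e2, List.map_congr_left (fun ℓ _ => e3 ℓ), List.map_congr_left (fun v _ => e4 v),
    List.map_congr_left (fun c _ => e5 c), sum_range_list, sum_range_list]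
  have e6 : (φ.map (fun c => ([lit c.1, lit c.2.1, lit c.2.2].map u).sum +
        (((mB φ : ℤ) - 2) * u (NB φ) - (mB φ - 1)))).sum =
      ((lits φ).map u).sum + φ.length * (((mB φ : ℤ) - 2) * u (NB φ) - (mB φ - 1)) := by
    unfold lits
    rw [sum_map_flatMap]
    exact sum_map_add_const φ _ _
  rw [e6, sum_count (lits φ) u (NB φ) (lits_lt hφ), sum_sub_distrib, sum_sub_distrib,
    ← mul_sum, sum_const, card_range]
  have e7 : ∑ v ∈ range (kB φ), (u (2 * v) + u (2 * v + 1)) = ∑ ℓ ∈ range (NB φ), u ℓ := by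
    unfold NB
    generalize kB φ = n
    induction n with
    | zero => simp
    | succ n ih =>
      rw [sum_range_succ, ih, show 2 * (n + 1) = 2 * n + 1 + 1 by ring, sum_range_succ,
        sum_range_succ]
      ring
  rw [e7]
  simp only [nsmul_eq_mul]
  push_cast
  ring

end Pool.Agent.H577R2.BJ
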