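import Pool.Agent.H577R2.BJ.SatB

/-!
# The linear system of a formula: correctness
-/

namespace Pool.Agent.H577R2.BJ

open Finset Pool.Agent.NPC

theorem mem_itB {φ : CNF3} {it : Item} : it ∈ itB φ ↔ it = (2, [], 0) ∨ it = (mB φ + 2, [], 1) ∨
    (∃ ℓ < NB φ, it = (1, [ℓ], 0)) ∨ (∃ v < kB φ, it = (0, [2 * v, 2 * v + 1], 0)) ∨
    ∃ c ∈ φ, it = (mB φ - 1, [lit c.1, lit c.2.1, lit c.2.2], 1) := by
  unfold itB
  rw [List.mem_append, List.mem_append, List.mem_append, List.mem_append, List.mem_replicate,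
    List.mem_replicate, List.mem_flatMap, List.mem_map, List.mem_map]
  have h1 : 3 * MB φ ≠ 0 := by
    unfold MB
    omega
  have h2 : 9 * φ.length ^ 2 + 8 * φ.length + 2 ≠ 0 := by omega
  have h3 : (∃ a ∈ List.range (NB φ), it ∈ List.replicate (3 * φ.length + 1 - (lits φ).count a)
      ((1, [a], 0) : Item)) ↔ ∃ ℓ < NB φ, it = (1, [ℓ], 0) := by
    constructor
    · rintro ⟨a, ha, hb⟩
      rw [List.mem_range] at ha
      rw [List.mem_replicate] at hb
      exact ⟨a, ha, hb.2⟩
    · rintro ⟨ℓ, hℓ, rfl⟩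
      refine ⟨ℓ, List.mem_range.2 hℓ, List.mem_replicate.2 ⟨?_, rfl⟩⟩
      have := count_le φ ℓ
      omega
  rw [h3]
  simp only [ne_eq, h1, not_false_eq_true, true_and, h2, List.mem_range]
  have h4 : (∃ a < kB φ, ((0, [2 * a, 2 * a + 1], 0) : Item) = it) ↔
      ∃ v < kB φ, it = (0, [2 * v, 2 * v + 1], 0) :=
    ⟨fun ⟨a, ha, hb⟩ => ⟨a, ha, hb.symm⟩, fun ⟨a, ha, hb⟩ => ⟨a, ha, hb.symm⟩⟩
  have h5 : (∃ c ∈ φ, ((mB φ - 1, [lit c.1, lit c.2.1, lit c.2.2], 1) : Item) = it) ↔
      ∃ c ∈ φ, it = (mB φ - 1, [lit c.1, lit c.2.1, lit c.2.2], 1) :=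
    ⟨fun ⟨a, ha, hb⟩ => ⟨a, ha, hb.symm⟩, fun ⟨a, ha, hb⟩ => ⟨a, ha, hb.symm⟩⟩
  rw [h4, h5]

theorem mB_ge (φ : CNF3) : 24 ≤ mB φ := by
  unfold mB MB
  omega

theorem sum_counts {φ : CNF3} (hφ : Small φ) :
    ∑ ℓ ∈ range (NB φ), (lits φ).count ℓ = 3 * φ.length := by
  have h1 := sum_count (lits φ) (fun _ => 1) (NB φ) (lits_lt hφ)
  simp only [List.map_const', List.sum_replicate, mul_one, lits_length] at h1
  have h2 : ((∑ ℓ ∈ range (NB φ), (lits φ).count ℓ : ℕ) : ℤ) = ((3 * φ.length : ℕ) : ℤ) := by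
    rw [Nat.cast_sum, ← h1]
    simp
  exact_mod_cast h2

theorem length_unit {φ : CNF3} (hφ : Small φ) : ((List.range (NB φ)).flatMap
      (fun ℓ => List.replicate (3 * φ.length + 1 - (lits φ).count ℓ) ((1, [ℓ], 0) : Item))).length =
    18 * φ.length ^ 2 + 9 * φ.length + 2 := by
  rw [List.length_flatMap]
  simp only [List.length_replicate]
  rw [sum_range_list_nat]
  have h1 : ∑ ℓ ∈ range (NB φ), (3 * φ.length + 1 - (lits φ).count ℓ) +
      ∑ ℓ ∈ range (NB φ), (lits φ).count ℓ = NB φ * (3 * φ.length + 1) := by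
    have h0 : ∀ ℓ ∈ range (NB φ), (3 * φ.length + 1 - (lits φ).count ℓ) + (lits φ).count ℓ =
        3 * φ.length + 1 := by
      intro ℓ _
      have := count_le φ ℓ
      omega
    rw [← sum_add_distrib, sum_congr rfl h0, sum_const, card_range, smul_eq_mul]
  rw [sum_counts hφ] at h1
  have h2 : NB φ * (3 * φ.length + 1) = 18 * φ.length ^ 2 + 9 * φ.length + 2 + 3 * φ.length := by
    unfold NB kB
    ring
  omega

theorem itB_length {φ : CNF3} (hφ : Small φ) : (itB φ).length + 1 = mB φ := by
  unfold itB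
  rw [List.length_append, List.length_append, List.length_append, List.length_append,
    List.length_replicate, List.length_replicate, length_unit hφ, List.length_map,
    List.length_map, List.length_range]
  unfold mB MB kB
  omega

theorem itB_few {φ : CNF3} (hφ : Small φ) :
    4 * (((itB φ).filter (fun it => it ≠ (2, [], 0))).length + 1) ≤ mB φ := by
  have h1 := itB_length hφ
  have h2 : ((itB φ).filter (fun it => it ≠ (2, [], 0))).length + 3 * MB φ ≤
      (itB φ).length := by
    unfold itB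
    rw [List.filter_append, List.length_append, List.length_append, List.length_replicate]
    have h3 : (List.replicate (3 * MB φ) ((2, [], 0) : Item)).filter
        (fun it => it ≠ (2, [], 0)) = [] := by
      rw [List.filter_eq_nil_iff]
      intro a ha
      rw [List.mem_replicate] at ha
      simp [ha.2]
    rw [h3, List.length_nil, zero_add, add_comm]
    exact Nat.add_le_add_left (List.length_filter_le _ _) _
  unfold mB at *
  omega

theorem itB_good {φ : CNF3} (hφ : Small φ) : GoodL (mB φ) (NB φ) (itB φ) where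
  len := itB_length hφ
  good := by
    have hm := mB_ge φ
    intro it hit
    rw [mem_itB] at hit
    rcases hit with rfl | rfl | ⟨ℓ, hℓ, rfl⟩ | ⟨v, hv, rfl⟩ | ⟨c, hc, rfl⟩
    · exact ⟨by simp, by simp, by simp, by simp⟩
    · refine ⟨?_, by simp, by simp, by simp⟩
      simp only [List.length_nil]
      omega
    · exact ⟨by simp, by simp, by simp, by simpa using hℓ.le⟩
    · refine ⟨by simp, by simp, by simp, ?_⟩
      intro ℓ hℓ
      simp only [List.mem_cons, List.not_mem_nil, or_false] at hℓ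
      unfold NB
      omega
    · obtain ⟨h1, h2, h3⟩ := hφ c hc
      refine ⟨?_, by simp, by simp, ?_⟩
      · simp only [List.length_cons, List.length_nil]
        omega
      · intro ℓ hℓ
        simp only [List.mem_cons, List.not_mem_nil, or_false] at hℓ
        rcases hℓ with rfl | rfl | rfl
        · exact (lit_lt h1).le
        · exact (lit_lt h2).le
        · exact (lit_lt h3).le
  unitN := mem_itB.2 (Or.inl rfl)
  unit := fun ℓ hℓ => mem_itB.2 (Or.inr (Or.inr (Or.inl ⟨ℓ, hℓ, rfl⟩)))

theorem sum_pairs_int (f : ℕ → ℤ) (n : ℕ) :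
    ∑ j ∈ range (2 * n), f j = ∑ v ∈ range n, (f (2 * v) + f (2 * v + 1)) := by
  induction n with
  | zero => simp
  | succ n ih =>
    rw [Finset.sum_range_succ, ← ih, show 2 * (n + 1) = 2 * n + 1 + 1 by ring,
      Finset.sum_range_succ, Finset.sum_range_succ]
    ring

/-- 3SAT is equivalent to the linear system. -/
theorem sat_iff_lin (φ : CNF3) (hφ : Small φ) :
    SAT3 φ ↔ ∃ u : ℕ → ℤ, (∀ it ∈ itB φ, 0 ≤ hf (mB φ) (NB φ) u it) ∧
        ((itB φ).map (hf (mB φ) (NB φ) u)).sum ≤ (mB φ : ℤ) - 1 := by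
  have hm := mB_ge φ
  have hm' : (24 : ℤ) ≤ mB φ := by exact_mod_cast hm
  have hmM : (mB φ : ℤ) = 4 * MB φ := by
    unfold mB
    push_cast
    ring
  have hhf5 : ∀ (u : ℕ → ℤ) (c : Lit ℕ × Lit ℕ × Lit ℕ), u (NB φ) = 1 → hf (mB φ) (NB φ) u
      ((mB φ - 1, [lit c.1, lit c.2.1, lit c.2.2], 1) : Item) =
      u (lit c.1) + u (lit c.2.1) + u (lit c.2.2) - 1 := by
    intro u c hN
    simp only [hf, List.map_cons, List.map_nil, List.sum_cons, List.sum_nil]
    rw [hN, Nat.cast_sub (by omega)]
    push_cast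
    ring
  constructor
  · rintro ⟨τ, hτ⟩
    obtain ⟨u, hu⟩ : ∃ u : ℕ → ℤ, ∀ ℓ, u ℓ = if ℓ = NB φ then 1 else
      if τ (ℓ / 2) = decide (ℓ % 2 = 1) then 1 else 0 := ⟨_, fun _ => rfl⟩
    have hN : u (NB φ) = 1 := by rw [hu, if_pos rfl]
    have hu0 : ∀ ℓ, 0 ≤ u ℓ := by
      intro ℓ
      rw [hu]
      split_ifs <;> norm_num
    have hpair : ∀ v < kB φ, u (2 * v) + u (2 * v + 1) = 1 := by
      intro v hv
      have h1 : 2 * v ≠ NB φ := by
        unfold NB
        omega
      have h2 : 2 * v + 1 ≠ NB φ := by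
        unfold NB
        omega
      rw [hu, hu, if_neg h1, if_neg h2]
      have h3 : 2 * v / 2 = v := by omega
      have h4 : (2 * v + 1) / 2 = v := by omega
      have h5 : 2 * v % 2 = 0 := by omega
      have h6 : (2 * v + 1) % 2 = 1 := by omega
      rw [h3, h4, h5, h6]
      cases τ v <;> simp
    have hlit : ∀ l : Lit ℕ, l.2 < 3 * φ.length → τ l.2 = l.1 → u (lit l) = 1 := by
      intro l h1 h2
      have h3 := lit_lt h1
      rw [hu, if_neg h3.ne]
      unfold lit
      have h4 : (2 * l.2 + (bif l.1 then 1 else 0)) / 2 = l.2 := by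
        cases l.1 <;> simp
        omega
      have h5 : decide ((2 * l.2 + (bif l.1 then 1 else 0)) % 2 = 1) = l.1 := by
        cases l.1 <;> simp <;> omega
      rw [h4, h5, if_pos h2]
    refine ⟨u, ?_, ?_⟩
    · intro it hit
      rw [mem_itB] at hit
      rcases hit with rfl | rfl | ⟨ℓ, hℓ, rfl⟩ | ⟨v, hv, rfl⟩ | ⟨c, hc, rfl⟩
      · rw [hf_unitN]
        exact hu0 _
      · simp only [hf, List.map_nil, List.sum_nil]
        rw [hN]
        push_cast
        linarith
      · rw [hf_unit]
        exact hu0 _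
      · simp only [hf, List.map_cons, List.map_nil, List.sum_cons, List.sum_nil]
        rw [hN]
        have := hpair v hv
        push_cast
        linarith
      · rw [hhf5 u c hN]
        obtain ⟨h1, h2, h3⟩ := hφ c hc
        have g1 := hu0 (lit c.1)
        have g2 := hu0 (lit c.2.1)
        have g3 := hu0 (lit c.2.2)
        rcases hτ c hc with h | h | h
        · have := hlit _ h1 h
          linarith
        · have := hlit _ h2 h
          linarith
        · have := hlit _ h3 h
          linarith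
    · rw [sum_hf φ hφ u, hN]
      have h1 : ∑ ℓ ∈ range (NB φ), u ℓ = kB φ := by
        unfold NB
        rw [sum_pairs_int, sum_congr rfl fun v hv => hpair v (mem_range.1 hv)]
        simp
      rw [h1, hmM, MB_eq]
      unfold kB
      push_cast
      nlinarith
  · rintro ⟨u, hu, hs⟩
    have hle : ∀ it ∈ itB φ, hf (mB φ) (NB φ) u it ≤ (mB φ : ℤ) - 1 := by
      intro it hit
      refine le_trans (List.single_le_sum ?_ _ (List.mem_map_of_mem hit)) hs
      intro x hx
      rw [List.mem_map] at hx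
      obtain ⟨it', h1, rfl⟩ := hx
      exact hu it' h1
    have hN : u (NB φ) = 1 := by
      have h1 := hu _ (mem_itB.2 (Or.inr (Or.inl rfl)))
      have h2 := hle _ (mem_itB.2 (Or.inr (Or.inl rfl)))
      simp only [hf, List.map_nil, List.sum_nil] at h1 h2
      push_cast at h1 h2
      have h3 : 0 < u (NB φ) := by
        by_contra hcon
        push Not at hcon
        have : ((mB φ : ℤ) + 1) * u (NB φ) ≤ 0 :=
          mul_nonpos_of_nonneg_of_nonpos (by linarith) hcon
        linarith
      have h4 : u (NB φ) < 2 := by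
        by_contra hcon
        push Not at hcon
        have : ((mB φ : ℤ) + 1) * 2 ≤ ((mB φ : ℤ) + 1) * u (NB φ) :=
          mul_le_mul_of_nonneg_left hcon (by linarith)
        linarith
      omega
    have hu0 : ∀ ℓ < NB φ, 0 ≤ u ℓ := by
      intro ℓ hℓ
      have := hu _ (mem_itB.2 (Or.inr (Or.inr (Or.inl ⟨ℓ, hℓ, rfl⟩))))
      rwa [hf_unit] at this
    have hpair : ∀ v < kB φ, 1 ≤ u (2 * v) + u (2 * v + 1) := by
      intro v hv
      have := hu _ (mem_itB.2 (Or.inr (Or.inr (Or.inr (Or.inl ⟨v, hv, rfl⟩)))))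
      simp only [hf, List.map_cons, List.map_nil, List.sum_cons, List.sum_nil] at this
      rw [hN] at this
      push_cast at this
      linarith
    have hsum : ∑ ℓ ∈ range (NB φ), u ℓ ≤ kB φ := by
      rw [sum_hf φ hφ u, hN, hmM, MB_eq] at hs
      have h1 : (3 * (φ.length : ℤ) + 2) * (∑ ℓ ∈ range (NB φ), u ℓ) ≤
          (3 * (φ.length : ℤ) + 2) * kB φ := by
        unfold kB at *
        push_cast at *
        nlinarith
      exact le_of_mul_le_mul_left h1 (by positivity)
    have hpair1 : ∀ v < kB φ, u (2 * v) + u (2 * v + 1) = 1 := by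
      have h1 : ∑ v ∈ range (kB φ), (u (2 * v) + u (2 * v + 1) - 1) ≤ 0 := by
        rw [sum_sub_distrib, ← sum_pairs_int]
        simp only [sum_const, card_range, nsmul_eq_mul, mul_one]
        unfold NB at hsum
        linarith
      have h2 : ∀ v ∈ range (kB φ), 0 ≤ u (2 * v) + u (2 * v + 1) - 1 := by
        intro v hv
        have := hpair v (mem_range.1 hv)
        linarith
      have h3 : ∑ v ∈ range (kB φ), (u (2 * v) + u (2 * v + 1) - 1) = 0 :=
        le_antisymm h1 (sum_nonneg h2)
      intro v hv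
      have := (sum_eq_zero_iff_of_nonneg h2).1 h3 v (mem_range.2 hv)
      linarith
    refine ⟨fun v => decide (u (2 * v + 1) = 1), fun c hc => ?_⟩
    obtain ⟨h1, h2, h3⟩ := hφ c hc
    have hlit : ∀ l : Lit ℕ, l.2 < 3 * φ.length → 1 ≤ u (lit l) →
        decide (u (2 * l.2 + 1) = 1) = l.1 := by
      intro l hl h
      have hk : l.2 < kB φ := by
        unfold kB
        omega
      have e1 := hpair1 l.2 hk
      have e2 := hu0 (2 * l.2) (by unfold NB; omega)
      have e3 := hu0 (2 * l.2 + 1) (by unfold NB; omega)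
      unfold lit at h
      cases hl1 : l.1 with
      | true =>
        rw [hl1] at h
        simp only [cond_true] at h
        rw [decide_eq_true_iff]
        omega
      | false =>
        rw [hl1] at h
        simp only [cond_false, add_zero] at h
        rw [decide_eq_false_iff_not]
        omega
    have h4 := hu _ (mem_itB.2 (Or.inr (Or.inr (Or.inr (Or.inr ⟨c, hc, rfl⟩)))))
    rw [hhf5 u c hN] at h4
    by_contra hcon
    push Not at hcon
    obtain ⟨n1, n2, n3⟩ := hcon
    have f1 : u (lit c.1) < 1 := by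
      by_contra h
      push Not at h
      exact n1 (hlit _ h1 h)
    have f2 : u (lit c.2.1) < 1 := by
      by_contra h
      push Not at h
      exact n2 (hlit _ h2 h)
    have f3 : u (lit c.2.2) < 1 := by
      by_contra h
      push Not at h
      exact n3 (hlit _ h3 h)
    omega

/-! ### The moduli -/

/-- The common difference. -/
def gB (φ : CNF3) : ℕ := (NB φ).factorial

/-- The offset. -/
def zB (φ : CNF3) : ℕ := 24 * mB φ ^ 3

/-- The moduli. -/
def qM (φ : CNF3) (ℓ : ℕ) : ℕ := 1 + mB φ * (gB φ * (zB φ + ℓ))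

theorem NB_le (φ : CNF3) : NB φ ≤ mB φ := by
  unfold NB kB mB MB
  nlinarith

theorem qM_modl (φ : CNF3) : Modl (mB φ) (NB φ) (qM φ) (fun ℓ => gB φ * (zB φ + ℓ)) where
  m2 := by
    have := mB_ge φ
    omega
  eq := fun ℓ _ => rfl
  cop := by
    have key : ∀ a b, a < b → b ≤ NB φ → Nat.Coprime (qM φ a) (qM φ b) := by
      intro a b hab hb
      have hdvd : b - a ∣ mB φ * gB φ :=
        Dvd.dvd.mul_left (Nat.dvd_factorial (by omega) (by omega)) _
      have h1 : ∀ c, Nat.Coprime (qM φ c) (mB φ * gB φ) := by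
        intro c
        have : qM φ c = 1 + (mB φ * gB φ) * (zB φ + c) := by
          unfold qM
          ring
        rw [this]
        simp
      -- a common divisor divides the difference
      rw [Nat.coprime_iff_gcd_eq_one]
      set g := Nat.gcd (qM φ a) (qM φ b) with hg
      have hga : g ∣ qM φ a := Nat.gcd_dvd_left _ _
      have hgb : g ∣ qM φ b := Nat.gcd_dvd_right _ _
      have h2 : g ∣ qM φ b - qM φ a := Nat.dvd_sub hgb hga
      have h3 : qM φ b - qM φ a = mB φ * gB φ * (b - a) := by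
        unfold qM
        obtain ⟨k, rfl⟩ := Nat.exists_eq_add_of_lt hab
        have : 1 + mB φ * (gB φ * (zB φ + (a + k + 1))) =
            1 + mB φ * (gB φ * (zB φ + a)) + mB φ * gB φ * (k + 1) := by ring
        rw [this, Nat.add_sub_cancel_left]
        congr 1
        omega
      rw [h3] at h2
      have h4 : Nat.Coprime g (mB φ * gB φ) := Nat.Coprime.coprime_dvd_left hga (h1 a)
      have h5 : g ∣ b - a := h4.dvd_of_dvd_mul_left h2
      have h6 : g ∣ mB φ * gB φ := h5.trans hdvd
      exact Nat.Coprime.eq_one_of_dvd h4 h6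
    intro a ha b hb hab
    rcases lt_or_gt_of_ne hab with h | h
    · exact key a b h hb
    · exact (key b a h ha).symm
  le := by
    intro ℓ hℓ
    unfold qM
    gcongr
  close := by
    intro ℓ hℓ
    have h1 : qM φ (NB φ) - qM φ ℓ = mB φ * gB φ * (NB φ - ℓ) := by
      unfold qM
      obtain ⟨k, hk⟩ := Nat.exists_eq_add_of_le hℓ
      have : 1 + mB φ * (gB φ * (zB φ + NB φ)) =
          1 + mB φ * (gB φ * (zB φ + ℓ)) + mB φ * gB φ * k := by
        rw [hk]
        ring
      rw [this, Nat.add_sub_cancel_left]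
      congr 1
      omega
    rw [h1]
    have h2 := NB_le φ
    calc 24 * mB φ ^ 2 * (mB φ * gB φ * (NB φ - ℓ)) ≤ 24 * mB φ ^ 2 * (mB φ * gB φ * mB φ) := by
          gcongr
          omega
      _ = mB φ * (gB φ * zB φ) := by
          unfold zB
          ring
      _ ≤ qM φ ℓ := by
          unfold qM
          have : gB φ * zB φ ≤ gB φ * (zB φ + ℓ) := Nat.mul_le_mul_left _ (by omega)
          have := Nat.mul_le_mul_left (mB φ) this
          omega
  big := by
    have hm := mB_ge φ
    have hg : 1 ≤ gB φ := Nat.factorial_pos _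
    have h1 : 1 * (1 * zB φ) ≤ mB φ * (gB φ * (zB φ + NB φ)) := by
      refine Nat.mul_le_mul (by omega) (Nat.mul_le_mul hg (by omega))
    have h2 : 2 * mB φ ^ 2 + 13 * mB φ + 1 ≤ zB φ := by
      unfold zB
      nlinarith [Nat.pow_le_pow_left hm 2, sq_nonneg (mB φ)]
    unfold qM
    omega

/-- The instance. -/
def instB (φ : CNF3) : List ℕ × ℕ × ℕ :=
  (dL (qM φ) (NB φ) (itB φ), pB (mB φ) (qM φ (NB φ)), qB (mB φ) (qM φ (NB φ)))

theorem instB_correct (φ : CNF3) (hφ : Small φ) : SAT3 φ ↔ ¬ BJIT (instB φ) := by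
  rw [sat_iff_lin φ hφ]
  exact (main_inst (qM_modl φ) (itB_good hφ) (itB_few hφ)).symm

end Pool.Agent.H577R2.BJ
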